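import Pool.Agent.T9h44.LG.Spec2
import Pool.Agent.T9h31.LG.Planch

/-!
# (TR) of `T9h44.LG.Spec2`: the kernel of the transport in one variable (helper29)
-/

set_option autoImplicit false

namespace Pool.Agent.T9h29.LG

open MeasureTheory Real Pool.Agent.T9h44.LG Pool.Agent.T9h31.LG
open scoped ENNReal ComplexConjugate Topology

/-- `y - i (w - u²/(4b))` -/
noncomputable def zz (y b w u : ℝ) : ℂ := (y : ℂ) - Complex.I * ((w - u ^ 2 / (4 * b) : ℝ) : ℂ)

/-- the kernel -/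
noncomputable def kk (y b w u : ℝ) : ℂ := (zz y b w u ^ 2)⁻¹

/-- its derivative in `u` -/
noncomputable def kd (y b w u : ℝ) : ℂ := -(Complex.I * ((u / b : ℝ) : ℂ)) * (zz y b w u ^ 3)⁻¹

lemma zz_re (y b w u : ℝ) : (zz y b w u).re = y := by
  simp only [zz, Complex.sub_re, Complex.ofReal_re, Complex.mul_re, Complex.I_re, Complex.I_im,
    Complex.ofReal_im]
  ring

lemma zz_im (y b w u : ℝ) : (zz y b w u).im = -(w - u ^ 2 / (4 * b)) := by
  simp only [zz, Complex.sub_im, Complex.ofReal_im, Complex.mul_im, Complex.I_re, Complex.I_im,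
    Complex.ofReal_re]
  ring

lemma norm_zz_sq (y b w u : ℝ) : ‖zz y b w u‖ ^ 2 = y ^ 2 + (w - u ^ 2 / (4 * b)) ^ 2 := by
  rw [Complex.sq_norm, Complex.normSq_apply, zz_re, zz_im]; ring

lemma zz_ne {y : ℝ} (hy : 0 < y) (b w u : ℝ) : zz y b w u ≠ 0 := by
  intro h
  have := zz_re y b w u
  rw [h] at this
  simp only [Complex.zero_re] at this
  linarith

lemma norm_kk (y b w u : ℝ) : ‖kk y b w u‖ = (y ^ 2 + (w - u ^ 2 / (4 * b)) ^ 2)⁻¹ := by
  unfold kk
  rw [norm_inv, norm_pow, norm_zz_sq]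

lemma norm_zz_ge {y : ℝ} (hy : 0 < y) (b w u : ℝ) : y ≤ ‖zz y b w u‖ := by
  have h := Complex.abs_re_le_norm (zz y b w u)
  rw [zz_re, abs_of_pos hy] at h
  exact h

lemma continuous_zz (y b : ℝ) : Continuous fun p : ℝ × ℝ => zz y b p.1 p.2 := by
  unfold zz
  fun_prop

lemma continuous_kk {y : ℝ} (hy : 0 < y) (b : ℝ) : Continuous fun p : ℝ × ℝ => kk y b p.1 p.2 := by
  unfold kk
  exact ((continuous_zz y b).pow 2).inv₀ fun p => pow_ne_zero _ (zz_ne hy b _ _)

lemma continuous_kd {y : ℝ} (hy : 0 < y) (b : ℝ) : Continuous fun p : ℝ × ℝ => kd y b p.1 p.2 := by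
  unfold kd
  refine Continuous.mul ?_ (((continuous_zz y b).pow 3).inv₀ fun p => pow_ne_zero _ (zz_ne hy b _ _))
  exact ((continuous_const.mul (Complex.continuous_ofReal.comp
    (continuous_snd.div_const b)))).neg

lemma hasDeriv_kk {y : ℝ} (hy : 0 < y) {b : ℝ} (hb : 0 < b) (w u : ℝ) :
    HasDerivAt (fun u => kk y b w u) (kd y b w u) u := by
  have h1 : HasDerivAt (fun u : ℝ => (w - u ^ 2 / (4 * b) : ℝ)) (-(2 * u / (4 * b))) u := by
    have h := ((hasDerivAt_pow 2 u).div_const (4 * b)).const_sub w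
    refine h.congr_deriv ?_
    norm_num
  have h2 : HasDerivAt (fun u : ℝ => zz y b w u)
      (-(Complex.I * ((-(2 * u / (4 * b)) : ℝ) : ℂ))) u := by
    unfold zz
    exact (h1.ofReal_comp.const_mul Complex.I).const_sub (y : ℂ)
  have h3 := (h2.pow 2).inv (pow_ne_zero 2 (zz_ne hy b w u))
  unfold kk
  refine h3.congr_deriv ?_
  unfold kd
  have hz := zz_ne hy b w u
  have hb' : (b : ℂ) ≠ 0 := by exact_mod_cast hb.ne'
  simp only [Pi.pow_apply]
  push_cast
  field_simp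
  ring

lemma kk_lower {y : ℝ} (hy : 0 < y) {b : ℝ} (hb : 0 < b) (w : ℝ) :
    ∃ c : ℝ, 0 < c ∧ ∀ u : ℝ, c * (1 + u ^ 2) ≤ y ^ 2 + (w - u ^ 2 / (4 * b)) ^ 2 := by
  set D : ℝ := 1 + 4 * b ^ 2 + 4 * b * |w| with hD
  have hDp : 0 < D := by positivity
  refine ⟨min 1 (y ^ 2 / D), by positivity, fun u => ?_⟩
  set c : ℝ := min 1 (y ^ 2 / D) with hc
  have hc0 : 0 < c := by positivity
  have hc1 : c ≤ 1 := min_le_left _ _
  have hc2 : c * D ≤ y ^ 2 := by
    have := min_le_right 1 (y ^ 2 / D)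
    rwa [← hc, le_div_iff₀ hDp] at this
  set X : ℝ := u ^ 2 / (4 * b) - w with hX
  have hu : u ^ 2 = 4 * b * (X + w) := by rw [hX]; field_simp; ring
  have h2 : (w - u ^ 2 / (4 * b)) ^ 2 = X ^ 2 := by rw [hX]; ring
  rw [h2, hu]
  have h3 : c * (4 * b * X) ≤ X ^ 2 + 4 * b ^ 2 * c ^ 2 := by nlinarith [sq_nonneg (X - 2 * b * c)]
  have h4 : c ^ 2 ≤ c := by nlinarith
  have h5 : c * (4 * b * w) ≤ c * (4 * b * |w|) := by
    have := le_abs_self w
    gcongr
  have h6 : 4 * b ^ 2 * c ^ 2 ≤ 4 * b ^ 2 * c := by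
    have : 0 ≤ 4 * b ^ 2 := by positivity
    gcongr
  have h7 : c * D = c + c * (4 * b ^ 2) + c * (4 * b * |w|) := by rw [hD]; ring
  nlinarith

lemma integrable_kk {y : ℝ} (hy : 0 < y) {b : ℝ} (hb : 0 < b) (w : ℝ) :
    Integrable fun u : ℝ => kk y b w u := by
  obtain ⟨c, hc, h⟩ := kk_lower hy hb w
  refine Integrable.mono' (g := fun u : ℝ => c⁻¹ * (1 + u ^ 2)⁻¹)
    (integrable_inv_one_add_sq.const_mul _)
    ((continuous_kk hy b).comp (by fun_prop : Continuous fun u : ℝ => (w, u))).aestronglyMeasurable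
    (Filter.Eventually.of_forall fun u => ?_)
  rw [norm_kk, ← mul_inv]
  exact inv_anti₀ (by positivity) (h u)

/-- the `L¹` norm of the kernel -/
lemma lint_kk {y : ℝ} (hy : 0 < y) {b : ℝ} (hb : 0 < b) {w : ℝ} (hw : w ≠ 0) :
    ∫⁻ u : ℝ, ‖kk y b w u‖ₑ ≤ ENNReal.ofReal (4 * √b * π / (y * √|w|)) := by
  set a : ℝ := √|w| with ha
  have ha0 : 0 < a := Real.sqrt_pos.2 (abs_pos.2 hw)
  have ha2 : a ^ 2 = |w| := Real.sq_sqrt (abs_nonneg _)
  set s : ℝ := √b with hs
  have hs0 : 0 < s := Real.sqrt_pos.2 hb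
  have hs2 : s ^ 2 = b := Real.sq_sqrt hb.le
  set α : ℝ := a / (2 * s * y) with hα
  have hα0 : 0 < α := by positivity
  set β : ℝ := a ^ 2 / y with hβ
  set g : ℝ → ℝ := fun u => (y ^ 2)⁻¹ * (1 + (α * u - β) ^ 2)⁻¹ with hg
  have key : ∀ u : ℝ, 0 ≤ u → ‖kk y b w u‖ ≤ g u := by
    intro u hu
    rw [norm_kk, hg]
    simp only
    rw [← mul_inv]
    refine inv_anti₀ (by positivity) ?_
    have e1 : y ^ 2 * (1 + (α * u - β) ^ 2) = y ^ 2 + a ^ 2 * (a - u / (2 * s)) ^ 2 := by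
      rw [hα, hβ]; field_simp; ring
    rw [e1]
    have e2 : u ^ 2 / (4 * b) = (u / (2 * s)) ^ 2 := by rw [← hs2]; field_simp; norm_num
    rw [e2]
    set v : ℝ := u / (2 * s) with hv
    have hv0 : 0 ≤ v := by positivity
    have : a ^ 2 * (a - v) ^ 2 ≤ (w - v ^ 2) ^ 2 := by
      rcases abs_cases w with ⟨h1, h2⟩ | ⟨h1, h2⟩
      · have hw2 : w = a ^ 2 := by rw [ha2, h1]
        rw [hw2]
        have : (a ^ 2 - v ^ 2) ^ 2 = (a + v) ^ 2 * (a - v) ^ 2 := by ring
        rw [this]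
        have : a ^ 2 ≤ (a + v) ^ 2 := by nlinarith
        gcongr
      · have hw2 : w = -a ^ 2 := by rw [ha2, h1]; ring
        rw [hw2]
        have h3 : (a - v) ^ 2 ≤ a ^ 2 + v ^ 2 := by nlinarith
        have h4 : a ^ 2 * (a - v) ^ 2 ≤ a ^ 2 * (a ^ 2 + v ^ 2) := by gcongr
        nlinarith [sq_nonneg (v ^ 2), mul_nonneg (sq_nonneg a) (sq_nonneg v)]
    linarith
  have gint : Integrable g := by
    have h1 : Integrable fun u : ℝ => (1 + (α * u - β) ^ 2)⁻¹ := by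
      have h0 := (integrable_inv_one_add_sq.comp_sub_right β).comp_mul_left' hα0.ne'
      exact h0
    exact h1.const_mul _
  have gval : ∫ u, g u = 2 * s * π / (y * a) := by
    rw [hg, integral_const_mul]
    have h1 : ∫ u : ℝ, (1 + (α * u - β) ^ 2)⁻¹ = α⁻¹ * π := by
      rw [Measure.integral_comp_mul_left (fun x : ℝ => (1 + (x - β) ^ 2)⁻¹) α,
        integral_sub_right_eq_self (fun x : ℝ => (1 + x ^ 2)⁻¹) β, integral_univ_inv_one_add_sq,
        abs_of_pos (inv_pos.2 hα0), smul_eq_mul]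
    rw [h1, hα]
    field_simp
  have gnn : ∀ u, 0 ≤ g u := fun u => by rw [hg]; positivity
  have hev : ∀ u : ℝ, kk y b w (-u) = kk y b w u := fun u => by
    unfold kk zz; simp
  have h2 : ∀ u : ℝ, ‖kk y b w u‖ₑ ≤ ENNReal.ofReal (g u) + ENNReal.ofReal (g (-u)) := by
    intro u
    rcases le_total 0 u with hu | hu
    · refine le_trans ?_ le_self_add
      rw [← ofReal_norm]
      exact ENNReal.ofReal_le_ofReal (key u hu)
    · refine le_trans ?_ le_add_self
      rw [← hev, ← ofReal_norm]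
      exact ENNReal.ofReal_le_ofReal (key (-u) (by linarith))
  refine (lintegral_mono h2).trans ?_
  have gm : Measurable g := by rw [hg]; fun_prop
  rw [lintegral_add_left gm.ennreal_ofReal]
  have h3 : ∫⁻ u, ENNReal.ofReal (g (-u)) = ∫⁻ u, ENNReal.ofReal (g u) :=
    lintegral_neg_eq_self (fun u => ENNReal.ofReal (g u))
  rw [h3, ← ofReal_integral_eq_lintegral_ofReal gint (Filter.Eventually.of_forall gnn), gval,
    ← ENNReal.ofReal_add (by positivity) (by positivity)]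
  refine ENNReal.ofReal_le_ofReal (le_of_eq ?_)
  ring

/-- the `L¹` norm of the derivative of the kernel -/
lemma lint_kd {y : ℝ} (hy : 0 < y) {b : ℝ} (hb : 0 < b) (w : ℝ) :
    ∫⁻ u : ℝ, ‖kd y b w u‖ₑ ≤ ENNReal.ofReal (4 * π / y ^ 2) := by
  set g : ℝ → ℝ := fun v => y⁻¹ * (y ^ 2 + (w - v) ^ 2)⁻¹ with hg
  have gnn : ∀ v, 0 ≤ g v := fun v => by rw [hg]; positivity
  have gm : Measurable g := by rw [hg]; fun_prop
  have key : ∀ u : ℝ, 0 ≤ u → ‖kd y b w u‖ ≤ 2 * (2 * u / (4 * b) * g (u ^ 2 / (4 * b))) := by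
    intro u hu
    unfold kd
    rw [norm_mul, norm_neg, norm_mul, Complex.norm_I, one_mul, Complex.norm_real, norm_inv,
      norm_pow, Real.norm_eq_abs, abs_of_nonneg (by positivity : 0 ≤ u / b)]
    have h1 := norm_zz_ge hy b w u
    have h2 := norm_zz_sq y b w u
    have h3 : y * (y ^ 2 + (w - u ^ 2 / (4 * b)) ^ 2) ≤ ‖zz y b w u‖ ^ 3 := by
      rw [← h2]
      have : ‖zz y b w u‖ ^ 3 = ‖zz y b w u‖ * ‖zz y b w u‖ ^ 2 := by ring
      rw [this]
      gcongr
    have h4 : (‖zz y b w u‖ ^ 3)⁻¹ ≤ g (u ^ 2 / (4 * b)) := by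
      rw [hg]
      simp only
      rw [← mul_inv]
      exact inv_anti₀ (by positivity) h3
    calc u / b * (‖zz y b w u‖ ^ 3)⁻¹ ≤ u / b * g (u ^ 2 / (4 * b)) := by gcongr
      _ = _ := by field_simp; ring
  have hev : ∀ u : ℝ, ‖kd y b w (-u)‖ = ‖kd y b w u‖ := fun u => by
    unfold kd zz; simp [neg_div]
  have gint : Integrable g := by
    have h0 : Integrable fun v : ℝ => (1 + ((w - v) / y) ^ 2)⁻¹ :=
      (integrable_inv_one_add_sq.comp_div hy.ne').comp_sub_left w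
    have : g = fun v => y⁻¹ * ((y ^ 2)⁻¹ * (1 + ((w - v) / y) ^ 2)⁻¹) := by
      funext v
      rw [hg]
      simp only
      rw [← mul_inv (y ^ 2)]
      congr 2
      field_simp
    rw [this]
    exact (h0.const_mul _).const_mul _
  have gval : ∫ v, g v = π / y ^ 2 := by
    have : g = fun v => (y⁻¹ * (y ^ 2)⁻¹) * (1 + ((w - v) / y) ^ 2)⁻¹ := by
      funext v
      rw [hg]
      simp only
      rw [mul_assoc, ← mul_inv (y ^ 2)]
      congr 2
      field_simp
    rw [this, integral_const_mul]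
    have h1 : ∫ v : ℝ, (1 + ((w - v) / y) ^ 2)⁻¹ = y * π := by
      rw [integral_sub_left_eq_self (fun v : ℝ => (1 + (v / y) ^ 2)⁻¹) volume w,
        Measure.integral_comp_div (fun v : ℝ => (1 + v ^ 2)⁻¹) y, integral_univ_inv_one_add_sq,
        abs_of_pos hy, smul_eq_mul]
    rw [h1]
    field_simp
  have half : ∫⁻ u in Set.Ioi (0 : ℝ), ‖kd y b w u‖ₑ ≤ ENNReal.ofReal (2 * (π / y ^ 2)) := by
    have hinj : Set.InjOn (fun u : ℝ => u ^ 2 / (4 * b)) (Set.Ioi 0) := by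
      intro u hu v hv h
      simp only [Set.mem_Ioi] at hu hv
      simp only at h
      rw [div_left_inj' (by positivity)] at h
      exact (pow_left_inj₀ hu.le hv.le (by norm_num)).1 h
    have hder : ∀ u ∈ Set.Ioi (0 : ℝ), HasDerivWithinAt (fun u : ℝ => u ^ 2 / (4 * b))
        (2 * u / (4 * b)) (Set.Ioi 0) u := by
      intro u hu
      have h := ((hasDerivAt_pow 2 u).div_const (4 * b))
      refine (h.congr_deriv ?_).hasDerivWithinAt
      norm_num
    have h1 := lintegral_image_eq_lintegral_abs_deriv_mul measurableSet_Ioi hder hinj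
      (fun v => ENNReal.ofReal (g v))
    have h2 : ∫⁻ v in (fun u : ℝ => u ^ 2 / (4 * b)) '' Set.Ioi 0, ENNReal.ofReal (g v) ≤
        ENNReal.ofReal (π / y ^ 2) := by
      refine (setLIntegral_le_lintegral _ _).trans ?_
      rw [← ofReal_integral_eq_lintegral_ofReal gint (Filter.Eventually.of_forall gnn), gval]
    rw [h1] at h2
    calc ∫⁻ u in Set.Ioi (0 : ℝ), ‖kd y b w u‖ₑ ≤ ∫⁻ u in Set.Ioi (0 : ℝ),
          2 * (ENNReal.ofReal |2 * u / (4 * b)| * ENNReal.ofReal (g (u ^ 2 / (4 * b)))) := by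
          refine setLIntegral_mono' measurableSet_Ioi fun u hu => ?_
          have hu0 : 0 < u := hu
          rw [← ofReal_norm]
          refine (ENNReal.ofReal_le_ofReal (key u hu0.le)).trans (le_of_eq ?_)
          rw [ENNReal.ofReal_mul (by norm_num), ENNReal.ofReal_mul (by positivity),
            abs_of_nonneg (by positivity)]
          norm_num
      _ = 2 * ∫⁻ u in Set.Ioi (0 : ℝ),
            ENNReal.ofReal |2 * u / (4 * b)| * ENNReal.ofReal (g (u ^ 2 / (4 * b))) := by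
          rw [lintegral_const_mul]
          fun_prop
      _ ≤ 2 * ENNReal.ofReal (π / y ^ 2) := by gcongr
      _ = ENNReal.ofReal (2 * (π / y ^ 2)) := by
          rw [ENNReal.ofReal_mul (by norm_num)]; norm_num
  have tot : ∫⁻ u : ℝ, ‖kd y b w u‖ₑ =
      2 * ∫⁻ u in Set.Ioi (0 : ℝ), ‖kd y b w u‖ₑ := by
    have h1 := lintegral_add_compl (μ := (volume : Measure ℝ)) (fun u => ‖kd y b w u‖ₑ)
      (measurableSet_Ioi (a := (0 : ℝ)))
    rw [← h1, two_mul]
    congr 1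
    rw [Set.compl_Ioi, ← lintegral_indicator measurableSet_Iic,
      ← lintegral_indicator measurableSet_Ioi,
      ← lintegral_neg_eq_self (fun u => Set.indicator (Set.Iic (0 : ℝ)) (fun u => ‖kd y b w u‖ₑ) u)]
    refine lintegral_congr_ae ?_
    filter_upwards [compl_mem_ae_iff.2 (measure_singleton (0 : ℝ))] with u hu
    have hu0 : u ≠ 0 := by simpa using hu
    rcases lt_or_gt_of_ne hu0 with h | h
    · rw [Set.indicator_of_notMem (by simpa using h), Set.indicator_of_notMem (by simpa using h.le)]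
    · rw [Set.indicator_of_mem (by simpa using h.le), Set.indicator_of_mem (by simpa using h)]
      rw [← ofReal_norm, ← ofReal_norm, hev]
  rw [tot]
  calc 2 * ∫⁻ u in Set.Ioi (0 : ℝ), ‖kd y b w u‖ₑ ≤ 2 * ENNReal.ofReal (2 * (π / y ^ 2)) := by gcongr
    _ = ENNReal.ofReal (4 * π / y ^ 2) := by
      rw [show (2 : ℝ≥0∞) = ENNReal.ofReal 2 by norm_num, ← ENNReal.ofReal_mul (by norm_num)]
      congr 1; ring

lemma integrable_kd {y : ℝ} (hy : 0 < y) {b : ℝ} (hb : 0 < b) (w : ℝ) :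
    Integrable fun u : ℝ => kd y b w u := by
  refine ⟨((continuous_kd hy b).comp
    (by fun_prop : Continuous fun u : ℝ => (w, u))).aestronglyMeasurable, ?_⟩
  exact lt_of_le_of_lt (lint_kd hy hb w) ENNReal.ofReal_lt_top

lemma integrable_pow_exp {y : ℝ} (hy : 0 < y) {a : ℝ} (ha : -1 < a) :
    IntegrableOn (fun t : ℝ => t ^ a * Real.exp (-(y * t))) (Set.Ioi 0) := by
  have h := integrableOn_rpow_mul_exp_neg_mul_rpow (s := a) (p := 1) (b := y) ha one_pos hy
  refine h.congr_fun (fun t _ => ?_) measurableSet_Ioi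
  simp only [Real.rpow_one, neg_mul]

lemma int_lin_exp {z : ℂ} (hz : 0 < z.re) :
    ∫ t in Set.Ioi (0 : ℝ), (t : ℂ) * Complex.exp (-(z * t)) = (z ^ 2)⁻¹ := by
  have hz0 : z ≠ 0 := by
    intro h; rw [h] at hz; simp at hz
  have hn : ∀ t : ℝ, ‖Complex.exp (-(z * t))‖ = Real.exp (-(z.re * t)) := by
    intro t
    rw [Complex.norm_exp]
    congr 1
    simp
  have hd : ∀ t : ℝ, HasDerivAt (fun t : ℝ => -(((t : ℂ) / z + (z ^ 2)⁻¹) * Complex.exp (-(z * t))))
      ((t : ℂ) * Complex.exp (-(z * t))) t := by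
    intro t
    have h1 : HasDerivAt (fun t : ℝ => ((t : ℂ) / z + (z ^ 2)⁻¹)) (1 / z) t :=
      ((hasDerivAt_id t).ofReal_comp.div_const z).add_const _
    have h2 : HasDerivAt (fun t : ℝ => -(z * (t : ℂ))) (-(z * 1)) t :=
      ((hasDerivAt_id t).ofReal_comp.const_mul z).neg
    have h3 := (h1.mul h2.cexp).neg
    refine h3.congr_deriv ?_
    simp only [mul_one]
    field_simp
    ring
  have hint : IntegrableOn (fun t : ℝ => (t : ℂ) * Complex.exp (-(z * t))) (Set.Ioi 0) := by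
    refine Integrable.mono' (g := fun t : ℝ => t ^ (1 : ℝ) * Real.exp (-(z.re * t)))
      (integrable_pow_exp hz (by norm_num)) (by fun_prop) ?_
    refine (ae_restrict_iff' measurableSet_Ioi).2 (Filter.Eventually.of_forall fun t ht => ?_)
    have ht0 : 0 < t := ht
    rw [norm_mul, hn, Complex.norm_real, Real.norm_eq_abs, abs_of_pos ht0, Real.rpow_one]
  have hlim : Filter.Tendsto (fun t : ℝ => -(((t : ℂ) / z + (z ^ 2)⁻¹) * Complex.exp (-(z * t))))
      Filter.atTop (𝓝 0) := by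
    rw [tendsto_zero_iff_norm_tendsto_zero]
    have h1 : Filter.Tendsto (fun t : ℝ => t ^ (1 : ℝ) * Real.exp (-z.re * t)) Filter.atTop (𝓝 0) :=
      tendsto_rpow_mul_exp_neg_mul_atTop_nhds_zero 1 z.re hz
    have h2 : Filter.Tendsto (fun t : ℝ => t ^ (0 : ℝ) * Real.exp (-z.re * t)) Filter.atTop (𝓝 0) :=
      tendsto_rpow_mul_exp_neg_mul_atTop_nhds_zero 0 z.re hz
    have h3 := (h1.const_mul ‖z‖⁻¹).add (h2.const_mul ‖(z ^ 2)⁻¹‖)
    rw [mul_zero, mul_zero, add_zero] at h3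
    refine squeeze_zero' (Filter.Eventually.of_forall fun _ => norm_nonneg _) ?_ h3
    filter_upwards [Filter.eventually_gt_atTop 0] with t ht
    rw [norm_neg, norm_mul, hn]
    have : ‖(t : ℂ) / z + (z ^ 2)⁻¹‖ ≤ ‖z‖⁻¹ * t + ‖(z ^ 2)⁻¹‖ := by
      refine (norm_add_le _ _).trans (le_of_eq ?_)
      rw [norm_div, Complex.norm_real, Real.norm_eq_abs, abs_of_pos ht]
      ring
    calc _ ≤ (‖z‖⁻¹ * t + ‖(z ^ 2)⁻¹‖) * Real.exp (-(z.re * t)) := by gcongr
      _ = _ := by rw [Real.rpow_one, Real.rpow_zero, neg_mul]; ring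
  have h := integral_Ioi_of_hasDerivAt_of_tendsto' (a := (0 : ℝ)) (fun t _ => hd t) hint hlim
  rw [h]
  simp

/-- the kernel is a Laplace transform -/
lemma kk_laplace {y : ℝ} (hy : 0 < y) (b w u : ℝ) :
    kk y b w u = (2 * π : ℂ) ^ 2 * ∫ σ in Set.Ioi (0 : ℝ),
      ((σ * Real.exp (-(2 * π * σ * y)) : ℝ) : ℂ) * ee (w * σ) * ee (-(σ * u ^ 2 / (4 * b))) := by
  have hz : 0 < (2 * π * zz y b w u).re := by
    have : (2 * π * zz y b w u : ℂ) = ((2 * π : ℝ) : ℂ) * zz y b w u := by push_cast; ring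
    rw [this, Complex.re_ofReal_mul, zz_re]
    positivity
  have h := int_lin_exp hz
  have hpi : (π : ℂ) ≠ 0 := by exact_mod_cast Real.pi_ne_zero
  have h1 : ∫ σ in Set.Ioi (0 : ℝ),
      ((σ * Real.exp (-(2 * π * σ * y)) : ℝ) : ℂ) * ee (w * σ) * ee (-(σ * u ^ 2 / (4 * b))) =
      ∫ t in Set.Ioi (0 : ℝ), (t : ℂ) * Complex.exp (-(2 * π * zz y b w u * t)) := by
    refine setIntegral_congr_fun measurableSet_Ioi fun σ hσ => ?_
    unfold T9h44.LG.ee zz
    push_cast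
    rw [mul_assoc, mul_assoc, ← Complex.exp_add, ← Complex.exp_add]
    congr 2
    ring_nf
  rw [h1, h]
  unfold kk
  have hz' := zz_ne hy b w u
  field_simp

end Pool.Agent.T9h29.LG
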