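import Pool.Agent.T9h29.LG.K

/-!
# (TR) of `T9h44.LG.Spec2`: the Fourier transform of the kernel (Fresnel) (helper29)
-/

set_option autoImplicit false

namespace Pool.Agent.T9h29.LG

open MeasureTheory Real Pool.Agent.T9h44.LG Pool.Agent.T9h31.LG
open scoped ENNReal ComplexConjugate Topology

/-- `σ^(1/2) exp(-2πσy) ee(bη²/σ)` for `σ > 0` -/
noncomputable def nu (y b η σ : ℝ) : ℂ :=
  Set.indicator (Set.Ioi (0 : ℝ)) (fun σ =>
    ((σ ^ (1 / 2 : ℝ) * Real.exp (-(2 * π * σ * y)) : ℝ) : ℂ) * ee (b * η ^ 2 / σ)) σ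

/-- a root of `-i` -/
noncomputable def c0 : ℂ := (-Complex.I) ^ (1 / 2 : ℂ)

/-- the constant -/
noncomputable def Cb (b : ℝ) : ℂ := (2 * π : ℂ) ^ 2 * (((2 * b) ^ (1 / 2 : ℝ) : ℝ) : ℂ) * c0

lemma norm_c0 : ‖c0‖ = 1 := by
  unfold c0
  rw [show (1 / 2 : ℂ) = ((1 / 2 : ℝ) : ℂ) by push_cast; rfl, Complex.norm_cpow_real, norm_neg,
    Complex.norm_I, Real.one_rpow]

lemma norm_Cb {b : ℝ} (hb : 0 < b) : ‖Cb b‖ = (2 * π) ^ 2 * (2 * b) ^ (1 / 2 : ℝ) := by
  unfold Cb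
  rw [norm_mul, norm_mul, norm_c0, mul_one, norm_pow, norm_mul, Complex.norm_real,
    Complex.norm_real, Real.norm_eq_abs, Real.norm_eq_abs, abs_of_pos Real.pi_pos,
    abs_of_nonneg (Real.rpow_nonneg (by positivity) _)]
  norm_num

/-- the Gaussian -/
noncomputable def gg (s η ε : ℝ) : ℂ :=
  (1 / ((ε : ℂ) + Complex.I * s)) ^ (1 / 2 : ℂ) *
    Complex.exp (-(π * η ^ 2) / ((ε : ℂ) + Complex.I * s))

lemma gg_eq {ε : ℝ} (hε : 0 < ε) (s η : ℝ) :
    ∫ u : ℝ, ee (-(u * η)) * ((Real.exp (-(π * ε * u ^ 2)) : ℝ) : ℂ) * ee (-(s * u ^ 2 / 2)) =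
      gg s η ε := by
  have hpi : (π : ℂ) ≠ 0 := by exact_mod_cast Real.pi_ne_zero
  have hre : 0 < (π * ((ε : ℂ) + Complex.I * s)).re := by
    have : (π * ((ε : ℂ) + Complex.I * s)).re = π * ε := by simp
    rw [this]; positivity
  have h := fourierIntegral_gaussian hre ((-(2 * π * η) : ℝ) : ℂ)
  have hne : (ε : ℂ) + Complex.I * s ≠ 0 := by
    intro h0
    rw [h0] at hre
    simp at hre
  have e1 : (π : ℂ) / (π * ((ε : ℂ) + Complex.I * s)) = 1 / ((ε : ℂ) + Complex.I * s) := by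
    field_simp
  have e2 : -(((-(2 * π * η) : ℝ) : ℂ)) ^ 2 / (4 * (π * ((ε : ℂ) + Complex.I * s))) =
      -(π * η ^ 2) / ((ε : ℂ) + Complex.I * s) := by
    push_cast
    field_simp
    ring
  rw [e1, e2] at h
  unfold gg
  rw [← h]
  refine integral_congr_ae (Filter.Eventually.of_forall fun u => ?_)
  simp only
  unfold T9h44.LG.ee
  push_cast
  rw [← Complex.exp_add, ← Complex.exp_add, ← Complex.exp_add]
  congr 1
  ring

lemma norm_gg_le {ε : ℝ} (hε : 0 ≤ ε) {s : ℝ} (hs : 0 < s) (η : ℝ) :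
    ‖gg s η ε‖ ≤ s⁻¹ ^ (1 / 2 : ℝ) := by
  unfold gg
  set z : ℂ := (ε : ℂ) + Complex.I * s with hz
  have hre : z.re = ε := by rw [hz]; simp
  have him : z.im = s := by rw [hz]; simp
  have hzs : s ≤ ‖z‖ := by
    have := Complex.abs_im_le_norm z
    rwa [him, abs_of_pos hs] at this
  have hz0 : 0 < ‖z‖ := lt_of_lt_of_le hs hzs
  rw [norm_mul, show (1 / 2 : ℂ) = ((1 / 2 : ℝ) : ℂ) by push_cast; rfl, Complex.norm_cpow_real,
    norm_div, norm_one, one_div, Complex.norm_exp]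
  have h1 : (-(π * η ^ 2) / z).re ≤ 0 := by
    have : (-(π * η ^ 2) / z : ℂ) = ((-(π * η ^ 2) : ℝ) : ℂ) * z⁻¹ := by
      rw [div_eq_mul_inv]; push_cast; ring
    rw [this, Complex.re_ofReal_mul, Complex.inv_re, hre]
    have h2 : 0 ≤ ε / Complex.normSq z := div_nonneg hε (Complex.normSq_nonneg z)
    have h3 : 0 ≤ π * η ^ 2 := by positivity
    nlinarith
  calc _ ≤ ‖z‖⁻¹ ^ (1 / 2 : ℝ) * 1 := by
        gcongr
        exact Real.exp_le_one_iff.2 h1
    _ ≤ _ := by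
        rw [mul_one]
        gcongr

lemma gg_tendsto {s : ℝ} (hs : 0 < s) (η : ℝ) :
    Filter.Tendsto (fun ε : ℝ => gg s η ε) (𝓝[>] 0) (𝓝 (gg s η 0)) := by
  have hne : ((0 : ℝ) : ℂ) + Complex.I * s ≠ 0 := by
    simp [hs.ne']
  have hc : ContinuousAt (fun ε : ℝ => gg s η ε) 0 := by
    unfold gg
    have h1 : ContinuousAt (fun ε : ℝ => (ε : ℂ) + Complex.I * s) 0 := by fun_prop
    refine ContinuousAt.mul ?_ ?_
    · refine ContinuousAt.cpow (continuousAt_const.div h1 hne) continuousAt_const ?_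
      rw [Complex.mem_slitPlane_iff]
      right
      have : (1 / (((0 : ℝ) : ℂ) + Complex.I * s)) = ((s⁻¹ : ℝ) : ℂ) * (-Complex.I) := by
        rw [Complex.ofReal_zero, zero_add]
        have hs' : (s : ℂ) ≠ 0 := by exact_mod_cast hs.ne'
        push_cast
        field_simp
        rw [Complex.I_sq]; ring
      rw [this, Complex.im_ofReal_mul, Complex.neg_im, Complex.I_im]
      simp [hs.ne']
    · exact (continuousAt_const.div h1 hne).cexp
  exact hc.tendsto.mono_left nhdsWithin_le_nhds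

lemma gg_zero {s : ℝ} (hs : 0 < s) (η : ℝ) :
    gg s η 0 = ((s⁻¹ ^ (1 / 2 : ℝ) : ℝ) : ℂ) * c0 * ee (η ^ 2 / (2 * s)) := by
  unfold gg
  have hs' : (s : ℂ) ≠ 0 := by exact_mod_cast hs.ne'
  have e1 : (1 / (((0 : ℝ) : ℂ) + Complex.I * s)) = ((s⁻¹ : ℝ) : ℂ) * (-Complex.I) := by
    rw [Complex.ofReal_zero, zero_add]
    push_cast
    field_simp
    rw [Complex.I_sq]; ring
  have e2 : -(π * η ^ 2 : ℂ) / (((0 : ℝ) : ℂ) + Complex.I * s) =
      (((2 * π * (η ^ 2 / (2 * s)) : ℝ) : ℂ)) * Complex.I := by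
    rw [Complex.ofReal_zero, zero_add]
    push_cast
    field_simp
    rw [Complex.I_sq]; ring
  rw [e1, e2]
  unfold T9h44.LG.ee
  congr 1
  have hI : (-Complex.I) ≠ 0 := neg_ne_zero.2 Complex.I_ne_zero
  have hsi : 0 < s⁻¹ := inv_pos.2 hs
  unfold c0
  rw [Complex.cpow_def_of_ne_zero (mul_ne_zero (by exact_mod_cast hsi.ne') hI),
    Complex.cpow_def_of_ne_zero hI, Complex.log_ofReal_mul hsi hI, add_mul, Complex.exp_add]
  congr 1
  rw [Real.rpow_def_of_pos hsi, Complex.ofReal_exp]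
  push_cast
  rfl

lemma integrable_A {y : ℝ} (hy : 0 < y) :
    IntegrableOn (fun σ : ℝ => σ * Real.exp (-(2 * π * σ * y))) (Set.Ioi 0) := by
  refine (integrable_pow_exp (by positivity : 0 < 2 * π * y) (a := 1) (by norm_num)).congr_fun
    (fun t _ => ?_) measurableSet_Ioi
  simp only [Real.rpow_one]
  congr 2
  ring

lemma integrable_H {y : ℝ} (hy : 0 < y) :
    IntegrableOn (fun σ : ℝ => σ ^ (1 / 2 : ℝ) * Real.exp (-(2 * π * σ * y))) (Set.Ioi 0) := by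
  refine (integrable_pow_exp (by positivity : 0 < 2 * π * y) (a := 1 / 2) (by norm_num)).congr_fun
    (fun t _ => ?_) measurableSet_Ioi
  simp only
  congr 2
  ring

lemma khat_eps {y : ℝ} (hy : 0 < y) {b : ℝ} (hb : 0 < b) (w η : ℝ) {ε : ℝ} (hε : 0 < ε) :
    ∫ u : ℝ, ee (-(u * η)) * ((Real.exp (-(π * ε * u ^ 2)) : ℝ) : ℂ) * kk y b w u =
      (2 * π : ℂ) ^ 2 * ∫ σ in Set.Ioi (0 : ℝ),
        ((σ * Real.exp (-(2 * π * σ * y)) : ℝ) : ℂ) * ee (w * σ) * gg (σ / (2 * b)) η ε := by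
  set f : ℝ → ℝ → ℂ := fun u σ => ee (-(u * η)) * ((Real.exp (-(π * ε * u ^ 2)) : ℝ) : ℂ) *
    (((σ * Real.exp (-(2 * π * σ * y)) : ℝ) : ℂ) * ee (w * σ) * ee (-(σ * u ^ 2 / (4 * b)))) with hf
  have h1 : ∀ u : ℝ, ee (-(u * η)) * ((Real.exp (-(π * ε * u ^ 2)) : ℝ) : ℂ) * kk y b w u =
      (2 * π : ℂ) ^ 2 * ∫ σ in Set.Ioi (0 : ℝ), f u σ := by
    intro u
    rw [kk_laplace hy, hf]
    simp only
    rw [integral_const_mul]
    ring
  simp only [h1]
  rw [integral_const_mul]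
  congr 1
  have hint : Integrable (Function.uncurry f)
      ((volume : Measure ℝ).prod (volume.restrict (Set.Ioi (0 : ℝ)))) := by
    have hB : Integrable (fun u : ℝ => Real.exp (-(π * ε) * u ^ 2)) :=
      integrable_exp_neg_mul_sq (by positivity)
    have hP := hB.mul_prod (integrable_A hy)
    refine hP.mono ?_ (Filter.Eventually.of_forall fun p => ?_)
    · refine Continuous.aestronglyMeasurable ?_
      rw [hf]
      unfold Function.uncurry T9h44.LG.ee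
      fun_prop
    · rw [hf]
      unfold Function.uncurry
      simp only
      rw [norm_mul, norm_mul, norm_mul, norm_mul, norm_ee, norm_ee, norm_ee, one_mul, mul_one,
        mul_one, Complex.norm_real, Complex.norm_real, norm_mul (Real.exp _)]
      refine le_of_eq ?_
      congr 3
      ring
  rw [integral_integral_swap hint]
  refine setIntegral_congr_fun measurableSet_Ioi fun σ hσ => ?_
  simp only [hf]
  rw [← gg_eq hε, ← integral_const_mul]
  refine integral_congr_ae (Filter.Eventually.of_forall fun u => ?_)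
  simp only
  rw [show σ / (2 * b) * u ^ 2 / 2 = σ * u ^ 2 / (4 * b) by field_simp; ring]
  ring

lemma bound_gg {y : ℝ} {b : ℝ} (hb : 0 < b) (w η : ℝ) {ε : ℝ} (hε : 0 ≤ ε) {σ : ℝ} (hσ : 0 < σ) :
    ‖((σ * Real.exp (-(2 * π * σ * y)) : ℝ) : ℂ) * ee (w * σ) * gg (σ / (2 * b)) η ε‖ ≤
      (2 * b) ^ (1 / 2 : ℝ) * (σ ^ (1 / 2 : ℝ) * Real.exp (-(2 * π * σ * y))) := by
  rw [norm_mul, norm_mul, norm_ee, mul_one, Complex.norm_real, Real.norm_eq_abs,
    abs_of_nonneg (by positivity)]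
  have h1 := norm_gg_le hε (show 0 < σ / (2 * b) by positivity) η
  have h2 : (σ / (2 * b))⁻¹ ^ (1 / 2 : ℝ) * σ = (2 * b) ^ (1 / 2 : ℝ) * σ ^ (1 / 2 : ℝ) := by
    rw [inv_div, Real.div_rpow (by positivity) hσ.le]
    have h3 : σ ^ (1 / 2 : ℝ) * σ ^ (1 / 2 : ℝ) = σ := by
      rw [← Real.rpow_add hσ]; norm_num
    have h4 : 0 < σ ^ (1 / 2 : ℝ) := Real.rpow_pos_of_pos hσ _
    field_simp
    rw [pow_two, h3]
  calc _ ≤ σ * Real.exp (-(2 * π * σ * y)) * (σ / (2 * b))⁻¹ ^ (1 / 2 : ℝ) := by gcongr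
    _ = (σ / (2 * b))⁻¹ ^ (1 / 2 : ℝ) * σ * Real.exp (-(2 * π * σ * y)) := by ring
    _ = _ := by rw [h2]; ring

/-- the Fourier transform of the kernel -/
theorem khat_eq {y : ℝ} (hy : 0 < y) {b : ℝ} (hb : 0 < b) (w η : ℝ) :
    ∫ u : ℝ, ee (-(u * η)) * kk y b w u = Cb b * ∫ σ : ℝ, ee (w * σ) * nu y b η σ := by
  have hL : Filter.Tendsto (fun ε : ℝ =>
      ∫ u : ℝ, ee (-(u * η)) * ((Real.exp (-(π * ε * u ^ 2)) : ℝ) : ℂ) * kk y b w u) (𝓝[>] 0)
      (𝓝 (∫ u : ℝ, ee (-(u * η)) * kk y b w u)) := by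
    refine tendsto_integral_filter_of_dominated_convergence (fun u => ‖kk y b w u‖) ?_ ?_
      (integrable_kk hy hb w).norm ?_
    · refine Filter.Eventually.of_forall fun ε => ?_
      refine AEStronglyMeasurable.mul ?_ (integrable_kk hy hb w).aestronglyMeasurable
      refine Continuous.aestronglyMeasurable ?_
      unfold T9h44.LG.ee
      fun_prop
    · filter_upwards [self_mem_nhdsWithin] with ε hε
      refine Filter.Eventually.of_forall fun u => ?_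
      have hε0 : 0 < ε := hε
      rw [norm_mul, norm_mul, norm_ee, one_mul, Complex.norm_real, Real.norm_eq_abs,
        abs_of_pos (Real.exp_pos _)]
      refine mul_le_of_le_one_left (norm_nonneg _) (Real.exp_le_one_iff.2 ?_)
      have : 0 ≤ π * ε * u ^ 2 := by positivity
      linarith
    · refine Filter.Eventually.of_forall fun u => ?_
      have hc : Continuous fun ε : ℝ =>
          ee (-(u * η)) * ((Real.exp (-(π * ε * u ^ 2)) : ℝ) : ℂ) * kk y b w u := by fun_prop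
      have := (hc.tendsto 0).mono_left (nhdsWithin_le_nhds (s := Set.Ioi (0 : ℝ)))
      simpa using this
  have hR : Filter.Tendsto (fun ε : ℝ => (2 * π : ℂ) ^ 2 * ∫ σ in Set.Ioi (0 : ℝ),
        ((σ * Real.exp (-(2 * π * σ * y)) : ℝ) : ℂ) * ee (w * σ) * gg (σ / (2 * b)) η ε) (𝓝[>] 0)
      (𝓝 ((2 * π : ℂ) ^ 2 * ∫ σ in Set.Ioi (0 : ℝ),
        ((σ * Real.exp (-(2 * π * σ * y)) : ℝ) : ℂ) * ee (w * σ) * gg (σ / (2 * b)) η 0)) := by
    refine Filter.Tendsto.const_mul _ ?_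
    refine tendsto_integral_filter_of_dominated_convergence (fun σ =>
      (2 * b) ^ (1 / 2 : ℝ) * (σ ^ (1 / 2 : ℝ) * Real.exp (-(2 * π * σ * y)))) ?_ ?_
      ((integrable_H hy).const_mul _) ?_
    · refine Filter.Eventually.of_forall fun ε => ?_
      refine Measurable.aestronglyMeasurable ?_
      unfold gg T9h44.LG.ee
      fun_prop
    · filter_upwards [self_mem_nhdsWithin] with ε hε
      have hε0 : 0 < ε := hε
      exact (ae_restrict_iff' measurableSet_Ioi).2 (Filter.Eventually.of_forall fun σ hσ =>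
        bound_gg hb w η hε0.le hσ)
    · refine (ae_restrict_iff' measurableSet_Ioi).2 (Filter.Eventually.of_forall fun σ hσ => ?_)
      have hσ0 : 0 < σ := hσ
      exact (gg_tendsto (by positivity) η).const_mul _
  have heq : ∀ᶠ ε in 𝓝[>] (0 : ℝ),
      ∫ u : ℝ, ee (-(u * η)) * ((Real.exp (-(π * ε * u ^ 2)) : ℝ) : ℂ) * kk y b w u =
      (2 * π : ℂ) ^ 2 * ∫ σ in Set.Ioi (0 : ℝ),
        ((σ * Real.exp (-(2 * π * σ * y)) : ℝ) : ℂ) * ee (w * σ) * gg (σ / (2 * b)) η ε := by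
    filter_upwards [self_mem_nhdsWithin] with ε hε
    exact khat_eps hy hb w η hε
  rw [tendsto_nhds_unique hL (hR.congr' (heq.mono fun ε h => h.symm))]
  have e1 : ∫ σ : ℝ, ee (w * σ) * nu y b η σ = ∫ σ in Set.Ioi (0 : ℝ), ee (w * σ) *
      (((σ ^ (1 / 2 : ℝ) * Real.exp (-(2 * π * σ * y)) : ℝ) : ℂ) * ee (b * η ^ 2 / σ)) := by
    rw [← integral_indicator measurableSet_Ioi]
    refine integral_congr_ae (Filter.Eventually.of_forall fun σ => ?_)
    simp only [nu]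
    by_cases h : σ ∈ Set.Ioi (0 : ℝ)
    · rw [Set.indicator_of_mem h, Set.indicator_of_mem h]
    · rw [Set.indicator_of_notMem h, Set.indicator_of_notMem h, mul_zero]
  rw [e1]
  unfold Cb
  rw [mul_assoc ((2 * π : ℂ) ^ 2), mul_assoc ((2 * π : ℂ) ^ 2), ← integral_const_mul (_ * c0)]
  congr 1
  refine setIntegral_congr_fun measurableSet_Ioi fun σ hσ => ?_
  have hσ0 : 0 < σ := hσ
  rw [gg_zero (show 0 < σ / (2 * b) by positivity)]
  rw [show η ^ 2 / (2 * (σ / (2 * b))) = b * η ^ 2 / σ by field_simp]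
  have h2 : (σ / (2 * b))⁻¹ ^ (1 / 2 : ℝ) * σ = (2 * b) ^ (1 / 2 : ℝ) * σ ^ (1 / 2 : ℝ) := by
    rw [inv_div, Real.div_rpow (by positivity) hσ0.le]
    have h3 : σ ^ (1 / 2 : ℝ) * σ ^ (1 / 2 : ℝ) = σ := by
      rw [← Real.rpow_add hσ0]; norm_num
    have h4 : 0 < σ ^ (1 / 2 : ℝ) := Real.rpow_pos_of_pos hσ0 _
    field_simp
    rw [pow_two, h3]
  have h3 : (((σ / (2 * b))⁻¹ ^ (1 / 2 : ℝ) : ℝ) : ℂ) * σ =
      (((2 * b) ^ (1 / 2 : ℝ) : ℝ) : ℂ) * ((σ ^ (1 / 2 : ℝ) : ℝ) : ℂ) := by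
    exact_mod_cast h2
  have h4 : ∀ A B C D E F G : ℂ, A * B = C * D →
      B * E * F * (A * c0 * G) = C * c0 * (F * (D * E * G)) := by
    intro A B C D E F G h
    linear_combination (E * F * c0 * G) * h
  rw [Complex.ofReal_mul, Complex.ofReal_mul]
  exact h4 _ _ _ _ _ _ _ h3

end Pool.Agent.T9h29.LG
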