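import Pool.Agent.T9h44.LG.Spec2
import Pool.Agent.T9h31.LG.Planch

/-!
# (TR) of `T9h44.LG.Spec2`: test functions on the line, their transforms, and the convolution
theorem (helper29)
-/

set_option autoImplicit false

namespace Pool.Agent.T9h29.LG

open MeasureTheory Real Pool.Agent.T9h44.LG Pool.Agent.T9h31.LG
open scoped ENNReal ComplexConjugate Topology FourierTransform ContDiff

/-- inverse Fourier transform on the line -/
noncomputable def ift (f : ℝ → ℂ) (v : ℝ) : ℂ := ∫ σ : ℝ, ee (v * σ) * f σ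

lemma fourier_eq_ee (f : ℝ → ℂ) (v : ℝ) : 𝓕 f v = ∫ σ : ℝ, ee (-(v * σ)) * f σ := by
  rw [Real.fourier_real_eq_integral_exp_smul]
  refine integral_congr_ae (Filter.Eventually.of_forall fun x => ?_)
  simp only [smul_eq_mul]
  unfold T9h44.LG.ee
  congr 2
  push_cast; ring

lemma ift_eq (f : ℝ → ℂ) (v : ℝ) : ift f v = 𝓕⁻ f v := by
  rw [Real.fourierInv_eq_fourier_neg, fourier_eq_ee]
  unfold ift
  refine integral_congr_ae (Filter.Eventually.of_forall fun x => ?_)
  simp only [neg_mul, neg_neg]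

lemma norm_ift_le (f : ℝ → ℂ) (v : ℝ) : ‖ift f v‖ ≤ ∫ σ, ‖f σ‖ := by
  unfold ift
  refine (norm_integral_le_integral_norm _).trans (le_of_eq ?_)
  refine integral_congr_ae (Filter.Eventually.of_forall fun x => ?_)
  simp only [norm_mul, norm_ee, one_mul]

lemma continuous_ift {f : ℝ → ℂ} (h : Integrable f) : Continuous (ift f) := by
  unfold ift
  refine continuous_of_dominated (bound := fun ζ => ‖f ζ‖) (fun y => ?_)
    (fun y => Filter.Eventually.of_forall fun z => ?_) h.norm
    (Filter.Eventually.of_forall fun z => ?_)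
  · refine AEStronglyMeasurable.mul ?_ h.aestronglyMeasurable
    exact (continuous_ee.comp (by fun_prop)).aestronglyMeasurable
  · rw [norm_mul, norm_ee, one_mul]
  · exact (continuous_ee.comp (by fun_prop)).mul continuous_const

/-- the constant of the decay of the transform -/
noncomputable def DD (f : ℝ → ℂ) : ℝ := (∫ σ, ‖f σ‖) + ∫ σ, ‖iteratedDeriv 2 f σ‖

lemma hcs_iter {f : ℝ → ℂ} (hs : HasCompactSupport f) (n : ℕ) :
    HasCompactSupport (iteratedDeriv n f) := by
  induction n with
  | zero => rw [iteratedDeriv_zero]; exact hs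
  | succ n ih => rw [iteratedDeriv_succ]; exact ih.deriv

lemma ift_decay {f : ℝ → ℂ} (hf : ContDiff ℝ 2 f) (hs : HasCompactSupport f) (v : ℝ) :
    ‖ift f v‖ ≤ DD f * (1 + v ^ 2)⁻¹ := by
  have hint : ∀ n : ℕ, ((n : ℕ∞)) ≤ (2 : ℕ∞) → Integrable (iteratedDeriv n f) := by
    intro n hn
    have hn' : ((n : ℕ∞) : WithTop ℕ∞) ≤ ((2 : ℕ∞) : WithTop ℕ∞) := by exact_mod_cast hn
    refine Continuous.integrable_of_hasCompactSupport ?_ (hcs_iter hs n)
    exact (hf.continuous_iteratedDeriv n (by exact_mod_cast hn'))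
  have h1 := Real.fourier_iteratedDeriv (N := 2) (n := 2) (by exact_mod_cast hf) hint le_rfl
  have h2 := congrFun h1 (-v)
  have h3 : ‖𝓕 (iteratedDeriv 2 f) (-v)‖ ≤ ∫ σ, ‖iteratedDeriv 2 f σ‖ := by
    have := norm_ift_le (iteratedDeriv 2 f) v
    rw [ift_eq, Real.fourierInv_eq_fourier_neg] at this
    exact this
  rw [h2] at h3
  simp only [norm_smul, norm_pow, norm_mul, Complex.norm_I, Complex.norm_real, Real.norm_eq_abs,
    abs_of_pos Real.pi_pos, abs_neg, Complex.norm_ofNat, mul_one] at h3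
  have e1 : 𝓕 f (-v) = ift f v := by rw [ift_eq, Real.fourierInv_eq_fourier_neg]
  rw [e1] at h3
  have h4 := norm_ift_le f v
  have h5 : v ^ 2 ≤ (2 * π * |v|) ^ 2 := by
    rw [mul_pow, sq_abs]
    have : (1 : ℝ) ≤ (2 * π) ^ 2 := by nlinarith [Real.pi_gt_three]
    nlinarith [sq_nonneg v]
  rw [← div_eq_mul_inv, le_div_iff₀ (by positivity)]
  unfold DD
  nlinarith [norm_nonneg (ift f v)]

lemma integrable_ift {f : ℝ → ℂ} (hf : ContDiff ℝ 2 f) (hs : HasCompactSupport f) :
    Integrable (ift f) := by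
  refine Integrable.mono' (integrable_inv_one_add_sq.const_mul (DD f))
    (continuous_ift (hf.continuous.integrable_of_hasCompactSupport hs)).aestronglyMeasurable
    (Filter.Eventually.of_forall fun v => ift_decay hf hs v)

lemma lint_ift {f : ℝ → ℂ} (hf : ContDiff ℝ 2 f) (hs : HasCompactSupport f) :
    ∫⁻ v, ‖ift f v‖ₑ ≤ ENNReal.ofReal (π * DD f) := by
  have h0 : 0 ≤ DD f := by
    unfold DD
    have h1 : 0 ≤ ∫ σ, ‖f σ‖ := integral_nonneg fun _ => norm_nonneg _
    have h2 : 0 ≤ ∫ σ, ‖iteratedDeriv 2 f σ‖ := integral_nonneg fun _ => norm_nonneg _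
    linarith
  calc ∫⁻ v, ‖ift f v‖ₑ ≤ ∫⁻ v : ℝ, ENNReal.ofReal (DD f * (1 + v ^ 2)⁻¹) := by
        refine lintegral_mono fun v => ?_
        rw [← ofReal_norm]
        exact ENNReal.ofReal_le_ofReal (ift_decay hf hs v)
    _ = ENNReal.ofReal (∫ v : ℝ, DD f * (1 + v ^ 2)⁻¹) := by
        rw [ofReal_integral_eq_lintegral_ofReal (integrable_inv_one_add_sq.const_mul _)]
        exact Filter.Eventually.of_forall fun v => by positivity
    _ = _ := by rw [integral_const_mul, integral_univ_inv_one_add_sq, mul_comm]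

lemma inversion1 {f : ℝ → ℂ} (hf : ContDiff ℝ 2 f) (hs : HasCompactSupport f) (σ : ℝ) :
    ∫ v : ℝ, ee (-(v * σ)) * ift f v = f σ := by
  have hi : Integrable f := hf.continuous.integrable_of_hasCompactSupport hs
  have e0 : ift f = 𝓕⁻ f := funext fun v => ift_eq f v
  have h2 : Integrable (𝓕 f) := by
    have e1 : 𝓕 f = fun ξ => ift f (-ξ) := by
      ext ξ
      rw [ift_eq, Real.fourierInv_eq_fourier_neg, neg_neg]
    rw [e1]
    exact (integrable_ift hf hs).comp_neg
  have h3 := hf.continuous.fourier_fourierInv_eq hi h2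
  have h4 := congrFun h3 σ
  rw [fourier_eq_ee, ← e0] at h4
  rw [← h4]
  refine integral_congr_ae (Filter.Eventually.of_forall fun v => ?_)
  simp only
  rw [mul_comm σ v]

/-- the convolution theorem -/
theorem conv_ift {f N : ℝ → ℂ} (hf : ContDiff ℝ 2 f) (hs : HasCompactSupport f)
    (hN : Integrable N) (w : ℝ) :
    ∫ σ : ℝ, ee (w * σ) * (f σ * N σ) = ∫ w' : ℝ, ift f (w - w') * ift N w' := by
  have hI := integrable_ift hf hs
  have h1 : ∀ w' : ℝ, ift f (w - w') * ift N w' =
      ∫ σ : ℝ, ift f (w - w') * (ee (w' * σ) * N σ) := by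
    intro w'
    unfold ift
    rw [integral_const_mul]
  simp only [h1]
  have hsw : Integrable (Function.uncurry fun (w' σ : ℝ) => ift f (w - w') * (ee (w' * σ) * N σ))
      ((volume : Measure ℝ).prod volume) := by
    have hP := (hI.comp_sub_left w).mul_prod hN
    refine hP.mono ?_ (Filter.Eventually.of_forall fun p => ?_)
    · have hm := hP.aestronglyMeasurable
      have hme : AEStronglyMeasurable (fun p : ℝ × ℝ => ee (p.1 * p.2))
          ((volume : Measure ℝ).prod volume) :=
        (continuous_ee.comp (by fun_prop)).aestronglyMeasurable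
      refine (hme.mul hm).congr (Filter.Eventually.of_forall fun p => ?_)
      simp only [Function.uncurry]
      simp only [Pi.mul_apply]
      ring
    · simp only [Function.uncurry]
      rw [norm_mul, norm_mul, norm_mul, norm_ee, one_mul]
  rw [integral_integral_swap hsw]
  refine integral_congr_ae (Filter.Eventually.of_forall fun σ => ?_)
  simp only
  have h2 : ∫ w' : ℝ, ift f (w - w') * (ee (w' * σ) * N σ) =
      (∫ w' : ℝ, ift f (w - w') * ee (w' * σ)) * N σ := by
    rw [← integral_mul_const]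
    refine integral_congr_ae (Filter.Eventually.of_forall fun w' => ?_)
    simp only
    ring
  have h3 : ∫ w' : ℝ, ift f (w - w') * ee (w' * σ) = ∫ v : ℝ, ift f v * ee ((w - v) * σ) := by
    rw [← integral_sub_left_eq_self (fun v : ℝ => ift f v * ee ((w - v) * σ)) volume w]
    refine integral_congr_ae (Filter.Eventually.of_forall fun w' => ?_)
    simp only [sub_sub_cancel]
  have h4 : ∫ v : ℝ, ift f v * ee ((w - v) * σ) = ee (w * σ) * f σ := by
    rw [← inversion1 hf hs σ, ← integral_const_mul]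
    refine integral_congr_ae (Filter.Eventually.of_forall fun v => ?_)
    simp only
    have : ee ((w - v) * σ) = ee (w * σ) * ee (-(v * σ)) := by
      rw [← ee_add]; congr 1; ring
    rw [this]; ring
  rw [h2, h3, h4]
  ring

end Pool.Agent.T9h29.LG
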