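import Pool.Agent.T9h29.LG.Mu

/-!
# (TR) of `T9h44.LG.Spec2`: the multiplier in the time variable (helper29)
-/

set_option autoImplicit false

namespace Pool.Agent.T9h29.LG

open MeasureTheory Real Pool.Agent.T9h44.LG Pool.Agent.T9h31.LG
open scoped ENNReal ComplexConjugate Topology FourierTransform ContDiff

lemma bet_contDiff : ContDiff ℝ ∞ bet := by
  unfold bet
  exact (Real.smoothTransition.contDiff.comp (by fun_prop)).sub
    (Real.smoothTransition.contDiff.comp (by fun_prop))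

lemma bet_low {x : ℝ} (h : x ≤ 1 / 2) : bet x = 0 := by
  unfold bet
  rw [Real.smoothTransition.zero_of_nonpos (by linarith),
    Real.smoothTransition.zero_of_nonpos (by linarith), sub_zero]

lemma bet_high {x : ℝ} (h : 2 ≤ x) : bet x = 0 := by
  unfold bet
  rw [Real.smoothTransition.one_of_one_le (by linarith),
    Real.smoothTransition.one_of_one_le (by linarith), sub_self]

/-- `bet(s) s^(M-1)` -/
noncomputable def A0 (M : ℕ) (s : ℝ) : ℂ := ((bet s * s ^ (M - 1) : ℝ) : ℂ)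

lemma A0_contDiff (M : ℕ) : ContDiff ℝ ∞ (A0 M) := by
  unfold A0
  exact Complex.ofRealCLM.contDiff.comp (bet_contDiff.mul (contDiff_id.pow _))

lemma A0_tsupp (M : ℕ) : tsupport (A0 M) ⊆ Set.Icc (1 / 2) 2 := by
  refine closure_minimal ?_ isClosed_Icc
  intro s hs
  by_contra h
  refine hs ?_
  have : bet s = 0 := by
    rcases not_and_or.1 h with h1 | h1
    · exact bet_low (by linarith)
    · exact bet_high (by linarith)
  simp only [A0, this, zero_mul, Complex.ofReal_zero]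

/-- the multiplier on the unit scale -/
noncomputable def mu0 (M : ℕ) (lam s : ℝ) : ℂ := A0 M s * Complex.exp (-((2 * π * lam : ℝ) : ℂ) * s)

lemma mu0_contDiff (M : ℕ) (lam : ℝ) : ContDiff ℝ ∞ (mu0 M lam) := by
  unfold mu0
  refine (A0_contDiff M).mul ?_
  exact (contDiff_const.mul Complex.ofRealCLM.contDiff).cexp

lemma mu0_contDiff2 (M : ℕ) (lam : ℝ) : ContDiff ℝ 2 (mu0 M lam) := by
  exact_mod_cast contDiff_infty.1 (mu0_contDiff M lam) 2

lemma mu0_supp (M : ℕ) (lam : ℝ) : HasCompactSupport (mu0 M lam) := by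
  have h : HasCompactSupport (A0 M) :=
    isCompact_Icc.of_isClosed_subset (isClosed_tsupport _) (A0_tsupp M)
  exact h.mul_right

lemma exp_bound (K : ℕ) {lam : ℝ} (h : 0 ≤ lam) :
    (1 + lam) ^ (K + 2) ≤ ((K + 2).factorial * Real.exp 1) * Real.exp (π * lam) := by
  have h1 := Real.pow_div_factorial_le_exp (1 + lam) (by linarith) (K + 2)
  rw [div_le_iff₀ (by positivity)] at h1
  have h2 : Real.exp (1 + lam) ≤ Real.exp 1 * Real.exp (π * lam) := by
    rw [← Real.exp_add]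
    refine Real.exp_le_exp.2 ?_
    nlinarith [Real.pi_gt_three]
  calc _ ≤ Real.exp (1 + lam) * (K + 2).factorial := h1
    _ ≤ Real.exp 1 * Real.exp (π * lam) * (K + 2).factorial := by gcongr
    _ = _ := by ring

lemma DD_mu0 (M K : ℕ) : ∃ C : ℝ, 0 < C ∧ ∀ lam : ℝ, 0 ≤ lam →
    DD (mu0 M lam) ≤ C * (1 + lam) ^ (-(K : ℤ)) := by
  set A1 : ℝ → ℂ := deriv (A0 M) with hA1
  set A2 : ℝ → ℂ := deriv A1 with hA2
  have c1 : ContDiff ℝ ∞ A1 := (contDiff_infty_iff_deriv.1 (A0_contDiff M)).2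
  have c2 : ContDiff ℝ ∞ A2 := (contDiff_infty_iff_deriv.1 c1).2
  have s1 : tsupport A1 ⊆ Set.Icc (1 / 2) 2 := tsupport_deriv_subset.trans (A0_tsupp M)
  have s2 : tsupport A2 ⊆ Set.Icc (1 / 2) 2 := tsupport_deriv_subset.trans s1
  have hb : ∀ A : ℝ → ℂ, ContDiff ℝ ∞ A → tsupport A ⊆ Set.Icc (1 / 2) 2 →
      ∃ B : ℝ, 0 ≤ B ∧ ∀ s, ‖A s‖ ≤ B := by
    intro A hA hs
    have h : HasCompactSupport A := isCompact_Icc.of_isClosed_subset (isClosed_tsupport _) hs
    obtain ⟨B, hB⟩ := h.exists_bound_of_continuous hA.continuous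
    exact ⟨B, (norm_nonneg _).trans (hB 0), hB⟩
  obtain ⟨B0, hB0, h0⟩ := hb _ (A0_contDiff M) (A0_tsupp M)
  obtain ⟨B1, hB1, h1⟩ := hb _ c1 s1
  obtain ⟨B2, hB2, h2⟩ := hb _ c2 s2
  set B : ℝ := B0 + B1 + B2 + 1 with hB
  set F : ℝ := (K + 2).factorial * Real.exp 1 with hF
  have hFp : 0 < F := by positivity
  refine ⟨(3 / 2 * B * (2 * (2 * π) ^ 2)) * F, by positivity, fun lam hlam => ?_⟩
  set c : ℝ := 2 * π * lam with hc
  have hc0 : 0 ≤ c := by positivity
  set E : ℝ → ℂ := fun s => Complex.exp (-(c : ℂ) * s) with hE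
  have hEd : ∀ s : ℝ, HasDerivAt E (-(c : ℂ) * E s) s := by
    intro s
    have h := ((hasDerivAt_id s).ofReal_comp.const_mul (-(c : ℂ))).cexp
    refine h.congr_deriv ?_
    simp only [hE, mul_one, id_eq, Complex.ofReal_one]
    ring
  have hEn : ∀ s : ℝ, 1 / 2 ≤ s → ‖E s‖ ≤ Real.exp (-(π * lam)) := by
    intro s hs
    rw [hE]
    simp only
    rw [Complex.norm_exp]
    refine Real.exp_le_exp.2 ?_
    have : (-(c : ℂ) * s).re = -(c * s) := by
      rw [← Complex.ofReal_neg, ← Complex.ofReal_mul, Complex.ofReal_re]; ring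
    rw [this, hc]
    have : 0 ≤ π * lam := by positivity
    nlinarith
  have hm0 : mu0 M lam = fun s => A0 M s * E s := rfl
  have hd1 : deriv (mu0 M lam) = fun s => (A1 s - c * A0 M s) * E s := by
    ext s
    rw [hm0]
    have h3 := (((A0_contDiff M).differentiable (by simp)) s).hasDerivAt.mul (hEd s)
    refine h3.deriv.trans ?_
    rw [← hA1]
    ring
  have hd2 : iteratedDeriv 2 (mu0 M lam) = fun s => (A2 s - 2 * c * A1 s + c ^ 2 * A0 M s) * E s := by
    rw [iteratedDeriv_succ, iteratedDeriv_one, hd1]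
    ext s
    have g0 := (((A0_contDiff M).differentiable (by simp)) s).hasDerivAt
    have g1 := ((c1.differentiable (by simp)) s).hasDerivAt
    have h3 := (g1.sub (g0.const_mul (c : ℂ))).mul (hEd s)
    refine h3.deriv.trans ?_
    simp only [← hA1, ← hA2, Pi.sub_apply]
    ring
  set I : Set ℝ := Set.Icc (1 / 2 : ℝ) 2 with hI
  have zero : ∀ A : ℝ → ℂ, tsupport A ⊆ I → ∀ s, s ∉ I → A s = 0 := by
    intro A hA s hs
    by_contra h
    exact hs (hA (subset_tsupport _ h))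
  have intI : ∀ D : ℝ, ∫ s, I.indicator (fun _ => D) s = 3 / 2 * D := by
    intro D
    rw [integral_indicator measurableSet_Icc, setIntegral_const]
    simp only [smul_eq_mul, hI, Real.volume_real_Icc]
    norm_num
  have intgI : ∀ D : ℝ, Integrable (I.indicator (fun _ : ℝ => D)) := by
    intro D
    exact (integrable_indicator_iff measurableSet_Icc).2
      (integrableOn_const (by rw [Real.volume_Icc]; exact ENNReal.ofReal_ne_top))
  set D : ℝ := B * (1 + c) ^ 2 * Real.exp (-(π * lam)) with hD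
  have b1 : ∀ s, ‖mu0 M lam s‖ ≤ I.indicator (fun _ => D) s := by
    intro s
    rw [hm0]
    simp only
    by_cases hs : s ∈ I
    · rw [Set.indicator_of_mem hs, norm_mul]
      have h3 := hEn s hs.1
      have h4 := h0 s
      calc ‖A0 M s‖ * ‖E s‖ ≤ B * Real.exp (-(π * lam)) := by
            gcongr
            rw [hB]; linarith
        _ ≤ D := by
            rw [hD]
            have : (1 : ℝ) ≤ (1 + c) ^ 2 := by nlinarith
            have h5 : B * 1 ≤ B * (1 + c) ^ 2 := by gcongr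
            have := Real.exp_pos (-(π * lam))
            nlinarith
    · rw [Set.indicator_of_notMem hs, zero _ (A0_tsupp M) s hs, zero_mul, norm_zero]
  have b2 : ∀ s, ‖iteratedDeriv 2 (mu0 M lam) s‖ ≤ I.indicator (fun _ => D) s := by
    intro s
    rw [hd2]
    simp only
    by_cases hs : s ∈ I
    · rw [Set.indicator_of_mem hs, norm_mul]
      have h3 := hEn s hs.1
      have h6 : ‖A2 s - 2 * c * A1 s + c ^ 2 * A0 M s‖ ≤ B * (1 + c) ^ 2 := by
        have h7 : ‖A2 s - 2 * c * A1 s + c ^ 2 * A0 M s‖ ≤ ‖A2 s‖ + 2 * c * ‖A1 s‖ + c ^ 2 * ‖A0 M s‖ := by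
          refine (norm_add_le _ _).trans ?_
          refine add_le_add ((norm_sub_le _ _).trans ?_) ?_
          · rw [norm_mul, norm_mul, Complex.norm_real, Real.norm_eq_abs, abs_of_nonneg hc0]
            simp
          · rw [norm_mul, norm_pow, Complex.norm_real, Real.norm_eq_abs, abs_of_nonneg hc0]
        have g0 := h0 s
        have g1 := h1 s
        have g2 := h2 s
        have g3 : 2 * c * ‖A1 s‖ ≤ 2 * c * B := by
          gcongr; rw [hB]; linarith
        have g4 : c ^ 2 * ‖A0 M s‖ ≤ c ^ 2 * B := by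
          gcongr; rw [hB]; linarith
        have g5 : ‖A2 s‖ ≤ B := by rw [hB]; linarith
        nlinarith
      rw [hD]
      gcongr
    · rw [Set.indicator_of_notMem hs, zero _ (A0_tsupp M) s hs, zero _ s1 s hs, zero _ s2 s hs]
      simp
  have hDD : DD (mu0 M lam) ≤ 3 * D := by
    unfold DD
    have e1 : ∫ s, ‖mu0 M lam s‖ ≤ 3 / 2 * D := by
      rw [← intI]
      exact integral_mono_of_nonneg (Filter.Eventually.of_forall fun _ => norm_nonneg _) (intgI D)
        (Filter.Eventually.of_forall b1)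
    have e2 : ∫ s, ‖iteratedDeriv 2 (mu0 M lam) s‖ ≤ 3 / 2 * D := by
      rw [← intI]
      exact integral_mono_of_nonneg (Filter.Eventually.of_forall fun _ => norm_nonneg _) (intgI D)
        (Filter.Eventually.of_forall b2)
    linarith
  refine hDD.trans ?_
  have hx := exp_bound K hlam
  rw [← hF] at hx
  have hl : 0 < 1 + lam := by linarith
  rw [zpow_neg, zpow_natCast, ← div_eq_mul_inv, le_div_iff₀ (by positivity)]
  have hcc : (1 + c) ^ 2 ≤ (2 * π) ^ 2 * (1 + lam) ^ 2 := by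
    rw [← mul_pow]
    have : 1 + c ≤ 2 * π * (1 + lam) := by
      rw [hc]; nlinarith [Real.pi_gt_three]
    gcongr
  have hexp : Real.exp (-(π * lam)) * Real.exp (π * lam) = 1 := by
    rw [← Real.exp_add]; simp
  calc 3 * D * (1 + lam) ^ K = 3 * B * Real.exp (-(π * lam)) * ((1 + c) ^ 2 * (1 + lam) ^ K) := by
        rw [hD]; ring
    _ ≤ 3 * B * Real.exp (-(π * lam)) * ((2 * π) ^ 2 * (1 + lam) ^ 2 * (1 + lam) ^ K) := by gcongr
    _ = 3 * B * (2 * π) ^ 2 * Real.exp (-(π * lam)) * (1 + lam) ^ (K + 2) := by ring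
    _ ≤ 3 * B * (2 * π) ^ 2 * Real.exp (-(π * lam)) * (F * Real.exp (π * lam)) := by gcongr
    _ = 3 * B * (2 * π) ^ 2 * F * (Real.exp (-(π * lam)) * Real.exp (π * lam)) := by ring
    _ = _ := by rw [hexp]; ring

/-- the multiplier -/
noncomputable def mu (M : ℕ) (R : ℝ) (l : ℤ) (σ : ℝ) : ℂ :=
  (((2 : ℝ) ^ l) ^ (M - 1) : ℝ) * mu0 M (2 ^ l / R) (σ / 2 ^ l)

lemma mu_contDiff (M : ℕ) (R : ℝ) (l : ℤ) : ContDiff ℝ 2 (mu M R l) := by
  unfold mu
  refine contDiff_const.mul ?_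
  have h : ContDiff ℝ 2 (mu0 M (2 ^ l / R)) := mu0_contDiff2 M _
  exact h.comp (contDiff_id.div_const _)

lemma mu_supp (M : ℕ) (R : ℝ) (l : ℤ) : HasCompactSupport (mu M R l) := by
  unfold mu
  refine HasCompactSupport.mul_left ?_
  have h2 : (0 : ℝ) < 2 ^ l := by positivity
  have h := (mu0_supp M (2 ^ l / R)).comp_homeomorph
    (Homeomorph.mulRight₀ (((2 : ℝ) ^ l)⁻¹) (inv_ne_zero h2.ne'))
  have e : (fun σ : ℝ => mu0 M (2 ^ l / R) (σ / 2 ^ l)) =
      mu0 M (2 ^ l / R) ∘ (Homeomorph.mulRight₀ (((2 : ℝ) ^ l)⁻¹) (inv_ne_zero h2.ne')) := by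
    funext σ
    simp only [Function.comp_apply, Homeomorph.coe_mulRight₀, div_eq_mul_inv]
  rw [e]
  exact h

lemma ift_mu (M : ℕ) (R : ℝ) (l : ℤ) (v : ℝ) : ift (mu M R l) v =
    (((2 : ℝ) ^ l) ^ (M - 1) : ℝ) * (((2 : ℝ) ^ l : ℝ) * ift (mu0 M (2 ^ l / R)) (2 ^ l * v)) := by
  have h2 : (0 : ℝ) < 2 ^ l := by positivity
  unfold ift mu
  have h1 := Measure.integral_comp_div
    (fun s : ℝ => ee (2 ^ l * v * s) * mu0 M (2 ^ l / R) s) ((2 : ℝ) ^ l)
  rw [abs_of_pos h2, Complex.real_smul] at h1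
  rw [← h1, ← integral_const_mul]
  refine integral_congr_ae (Filter.Eventually.of_forall fun σ => ?_)
  simp only
  have : (2 : ℝ) ^ l * v * (σ / 2 ^ l) = v * σ := by field_simp
  rw [this]
  ring

/-- the `L¹` norm of the kernel of the multiplier -/
lemma lint_mu (M K : ℕ) : ∃ C : ℝ, 0 < C ∧ ∀ (R : ℝ) (l : ℤ), 0 < R →
    ∫⁻ v, ‖ift (mu M R l) v‖ₑ ≤
      ENNReal.ofReal (C * (((2 : ℝ) ^ l) ^ (M - 1) * (1 + 2 ^ l / R) ^ (-(K : ℤ)))) := by
  obtain ⟨C, hC, h⟩ := DD_mu0 M K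
  refine ⟨π * C, by positivity, fun R l hR => ?_⟩
  have h2 : (0 : ℝ) < 2 ^ l := by positivity
  set f : ℝ → ℂ := mu0 M (2 ^ l / R) with hf
  have hfc : ContDiff ℝ 2 f := mu0_contDiff2 M _
  have hfs : HasCompactSupport f := mu0_supp M _
  have hi : Integrable (ift f) := integrable_ift hfc hfs
  have e1 : ∀ v, ‖ift (mu M R l) v‖ = ((2 : ℝ) ^ l) ^ (M - 1) * (2 ^ l * ‖ift f (2 ^ l * v)‖) := by
    intro v
    rw [ift_mu, norm_mul, norm_mul, Complex.norm_real, Complex.norm_real, Real.norm_eq_abs,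
      Real.norm_eq_abs, abs_of_pos h2, abs_of_pos (by positivity)]
  have e2 : ∫ v, ‖ift (mu M R l) v‖ = ((2 : ℝ) ^ l) ^ (M - 1) * ∫ v, ‖ift f v‖ := by
    simp only [e1]
    rw [integral_const_mul, integral_const_mul,
      Measure.integral_comp_mul_left (fun v : ℝ => ‖ift f v‖) ((2 : ℝ) ^ l), abs_of_pos (inv_pos.2 h2),
      smul_eq_mul]
    field_simp
  rw [← ofReal_integral_norm_eq_lintegral_enorm
    (integrable_ift (mu_contDiff M R l) (mu_supp M R l)), e2]
  refine ENNReal.ofReal_le_ofReal ?_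
  have h3 : ∫ v, ‖ift f v‖ ≤ π * DD f := by
    have h4 := lint_ift hfc hfs
    rw [← ofReal_integral_norm_eq_lintegral_enorm hi] at h4
    refine (ENNReal.ofReal_le_ofReal_iff ?_).1 h4
    have h5 : 0 ≤ DD f := by
      unfold DD
      have h1 : 0 ≤ ∫ σ, ‖f σ‖ := integral_nonneg fun _ => norm_nonneg _
      have h2 : 0 ≤ ∫ σ, ‖iteratedDeriv 2 f σ‖ := integral_nonneg fun _ => norm_nonneg _
      linarith
    positivity
  have h5 := h (2 ^ l / R) (by positivity)
  rw [← hf] at h5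
  calc _ ≤ ((2 : ℝ) ^ l) ^ (M - 1) * (π * DD f) := by gcongr
    _ ≤ ((2 : ℝ) ^ l) ^ (M - 1) * (π * (C * (1 + 2 ^ l / R) ^ (-(K : ℤ)))) := by gcongr
    _ = _ := by ring

/-- the amplitude -/
lemma mu_amp (M : ℕ) (hM : 1 ≤ M) {R : ℝ} (hR : 0 < R) (l : ℤ) (σ : ℝ) :
    ((bet (σ / 2 ^ l) * am M R σ : ℝ) : ℂ) =
      mu M R l σ * Set.indicator (Set.Ioi (0 : ℝ)) (fun σ =>
        ((σ ^ (1 / 2 : ℝ) * Real.exp (-(2 * π * σ * R⁻¹)) : ℝ) : ℂ)) σ := by
  have h2 : (0 : ℝ) < 2 ^ l := by positivity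
  unfold mu mu0 A0
  by_cases h : σ ∈ Set.Ioi (0 : ℝ)
  · rw [Set.indicator_of_mem h]
    have hσ : 0 < σ := h
    rw [show Complex.exp (-((2 * π * (2 ^ l / R) : ℝ) : ℂ) * ((σ / 2 ^ l : ℝ) : ℂ)) =
      ((Real.exp (-(2 * π * σ * R⁻¹)) : ℝ) : ℂ) by
        rw [Complex.ofReal_exp, ← Complex.ofReal_neg, ← Complex.ofReal_mul]
        congr 2
        field_simp]
    rw [← Complex.ofReal_mul, ← Complex.ofReal_mul, ← Complex.ofReal_mul]
    congr 1
    unfold am
    have e1 : σ ^ ((M : ℝ) - 1 / 2) = σ ^ (M - 1) * σ ^ (1 / 2 : ℝ) := by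
      rw [← Real.rpow_natCast, ← Real.rpow_add hσ, Nat.cast_sub hM]
      congr 1
      push_cast
      ring
    have e2 : (σ / 2 ^ l) ^ (M - 1) * ((2 : ℝ) ^ l) ^ (M - 1) = σ ^ (M - 1) := by
      rw [← mul_pow]
      congr 1
      field_simp
    have e3 : Real.exp (-(4 * π * σ / R)) =
        Real.exp (-(2 * π * σ * R⁻¹)) * Real.exp (-(2 * π * σ * R⁻¹)) := by
      rw [← Real.exp_add]
      congr 1
      field_simp
      ring
    rw [e1, e3, ← e2]
    ring
  · rw [Set.indicator_of_notMem h, mul_zero]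
    have hσ : σ ≤ 0 := not_lt.1 h
    rw [bet_low (by
      have : σ / 2 ^ l ≤ 0 := div_nonpos_of_nonpos_of_nonneg hσ h2.le
      linarith), zero_mul, Complex.ofReal_zero]

end Pool.Agent.T9h29.LG
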