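import Pool.Agent.T9h29.LG.Kh
import Pool.Agent.T9h29.LG.Mu2

/-!
# (TR) of `T9h44.LG.Spec2`: the transport identity (helper29)
-/

set_option autoImplicit false

namespace Pool.Agent.T9h29.LG

open MeasureTheory Real Pool.Agent.T9h44.LG Pool.Agent.T9h31.LG
open scoped ENNReal ComplexConjugate Topology

variable {n : ℕ}

lemma NiceV.integrable {G : (Fin n → ℝ) → ℂ} (hG : NiceV G) : Integrable G := by
  obtain ⟨hm, ⟨B, hB⟩, r, hr⟩ := hG
  have hs : Function.support G ⊆ Set.pi Set.univ (fun _ : Fin n => Set.Icc (-r) r) := by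
    intro ζ hζ i _
    exact abs_le.1 (hr ζ hζ i)
  have hms : MeasurableSet (Set.pi Set.univ (fun _ : Fin n => Set.Icc (-r) r)) :=
    MeasurableSet.univ_pi fun _ => measurableSet_Icc
  have hfin : volume (Set.pi Set.univ (fun _ : Fin n => Set.Icc (-r) r)) < ⊤ :=
    (isCompact_univ_pi fun _ => isCompact_Icc).measure_lt_top
  rw [← Set.indicator_eq_self.2 hs]
  refine IntegrableOn.integrable_indicator ?_ hms
  exact Measure.integrableOn_of_bounded hfin.ne hm.aestronglyMeasurable
    (Filter.Eventually.of_forall fun ζ => hB ζ)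

lemma sum_shift (x : Fin n → ℝ) (j : Fin n) (u : ℝ) (ξ : Fin n → ℝ) :
    ∑ i, (x - (Pi.single j u : Fin n → ℝ)) i * ξ i = ∑ i, x i * ξ i - u * ξ j := by
  simp only [Pi.sub_apply, sub_mul, Finset.sum_sub_distrib]
  congr 1
  rw [Finset.sum_eq_single j]
  · simp
  · intro i _ hij
    rw [Pi.single_eq_of_ne hij, zero_mul]
  · intro h; exact absurd (Finset.mem_univ j) h

lemma ExV_shift (G : (Fin n → ℝ) → ℂ) (x : Fin n → ℝ) (j : Fin n) (u : ℝ) :
    ExV G (x - Pi.single j u) = ∫ ξ : Fin n → ℝ, ee (∑ i, x i * ξ i) * (ee (-(u * ξ j)) * G ξ) := by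
  unfold ExV
  refine integral_congr_ae (Filter.Eventually.of_forall fun ξ => ?_)
  simp only
  rw [sum_shift, sub_eq_add_neg, ee_add, mul_assoc]

lemma continuous_ExV {G : (Fin n → ℝ) → ℂ} (hG : NiceV G) : Continuous (ExV G) := by
  unfold ExV
  refine continuous_of_dominated (bound := fun ζ => ‖G ζ‖) (fun y => ?_)
    (fun y => Filter.Eventually.of_forall fun z => ?_) (NiceV.integrable hG).norm
    (Filter.Eventually.of_forall fun z => ?_)
  · refine AEStronglyMeasurable.mul ?_ (NiceV.integrable hG).aestronglyMeasurable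
    exact (continuous_ee.comp (by fun_prop)).aestronglyMeasurable
  · rw [norm_mul, norm_ee, one_mul]
  · exact (continuous_ee.comp (by fun_prop)).mul continuous_const

lemma norm_ExV_le (G : (Fin n → ℝ) → ℂ) (x : Fin n → ℝ) : ‖ExV G x‖ ≤ ∫ ξ, ‖G ξ‖ := by
  unfold ExV
  refine (norm_integral_le_integral_norm _).trans (le_of_eq ?_)
  refine integral_congr_ae (Filter.Eventually.of_forall fun x => ?_)
  simp only [norm_mul, norm_ee, one_mul]

/-- the amplitude `σ^(1/2) exp(-2πσy)` on `σ > 0` -/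
noncomputable def HH (y σ : ℝ) : ℂ := Set.indicator (Set.Ioi (0 : ℝ)) (fun σ =>
    ((σ ^ (1 / 2 : ℝ) * Real.exp (-(2 * π * σ * y)) : ℝ) : ℂ)) σ

lemma integrable_HH {y : ℝ} (hy : 0 < y) : Integrable (HH y) := by
  unfold HH
  exact (integrable_indicator_iff measurableSet_Ioi).2 (integrable_H hy).ofReal

lemma measurable_HH (y : ℝ) : Measurable (HH y) := by
  unfold HH
  refine Measurable.indicator ?_ measurableSet_Ioi
  fun_prop

lemma nu_eq (y b η σ : ℝ) : nu y b η σ = HH y σ * ee (b * η ^ 2 / σ) := by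
  unfold nu HH
  by_cases h : σ ∈ Set.Ioi (0 : ℝ)
  · rw [Set.indicator_of_mem h, Set.indicator_of_mem h]
  · rw [Set.indicator_of_notMem h, Set.indicator_of_notMem h, zero_mul]

/-- the transported function -/
noncomputable def Phi (y b : ℝ) (j : Fin n) (G : (Fin n → ℝ) → ℂ) (w : ℝ) (x : Fin n → ℝ) : ℂ :=
  ∫ u : ℝ, kk y b w u * ExV G (x - Pi.single j u)

/-- its transform in the time variable -/
noncomputable def Nx (y b : ℝ) (j : Fin n) (G : (Fin n → ℝ) → ℂ) (x : Fin n → ℝ) (σ : ℝ) : ℂ :=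
  ∫ ξ : Fin n → ℝ, ee (∑ i, x i * ξ i) * (nu y b (ξ j) σ * G ξ)

lemma int_pair {y : ℝ} (hy : 0 < y) (b : ℝ) (j : Fin n) {G : (Fin n → ℝ) → ℂ} (hG : NiceV G)
    (x : Fin n → ℝ) (w : ℝ) :
    Integrable (fun p : (Fin n → ℝ) × ℝ =>
      ee (w * p.2) * (ee (∑ i, x i * p.1 i) * (nu y b (p.1 j) p.2 * G p.1)))
      ((volume : Measure (Fin n → ℝ)).prod volume) := by
  have hP := (NiceV.integrable hG).mul_prod (integrable_HH hy)
  refine hP.mono ?_ (Filter.Eventually.of_forall fun p => ?_)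
  · refine Measurable.aestronglyMeasurable ?_
    simp only [nu_eq]
    have h1 : Measurable fun p : (Fin n → ℝ) × ℝ => HH y p.2 := (measurable_HH y).comp measurable_snd
    have h2 : Measurable fun p : (Fin n → ℝ) × ℝ => G p.1 := hG.1.comp measurable_fst
    have h3 : Measurable fun p : (Fin n → ℝ) × ℝ => ee (b * p.1 j ^ 2 / p.2) :=
      measurable_ee.comp (by fun_prop)
    have h4 : Measurable fun p : (Fin n → ℝ) × ℝ => ee (w * p.2) := measurable_ee.comp (by fun_prop)
    have h5 : Measurable fun p : (Fin n → ℝ) × ℝ => ee (∑ i, x i * p.1 i) :=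
      measurable_ee.comp (by fun_prop)
    exact h4.mul (h5.mul ((h1.mul h3).mul h2))
  · rw [nu_eq]
    simp only [norm_mul, norm_ee, one_mul, mul_one]
    rw [mul_comm]

lemma integrable_Nx {y : ℝ} (hy : 0 < y) (b : ℝ) (j : Fin n) {G : (Fin n → ℝ) → ℂ} (hG : NiceV G)
    (x : Fin n → ℝ) : Integrable (Nx y b j G x) := by
  have h := (int_pair hy b j hG x 0).integral_prod_right
  refine h.congr (Filter.Eventually.of_forall fun σ => ?_)
  simp only [zero_mul, ee_zero, one_mul]
  rfl

lemma Phi_eq {y : ℝ} (hy : 0 < y) {b : ℝ} (hb : 0 < b) (j : Fin n) {G : (Fin n → ℝ) → ℂ}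
    (hG : NiceV G) (w : ℝ) (x : Fin n → ℝ) :
    Phi y b j G w x = Cb b * ift (Nx y b j G x) w := by
  have h1 : Phi y b j G w x = ∫ ξ : Fin n → ℝ, ee (∑ i, x i * ξ i) *
      ((∫ u : ℝ, ee (-(u * ξ j)) * kk y b w u) * G ξ) := by
    unfold Phi
    have e1 : ∀ u : ℝ, kk y b w u * ExV G (x - Pi.single j u) =
        ∫ ξ : Fin n → ℝ, kk y b w u * (ee (∑ i, x i * ξ i) * (ee (-(u * ξ j)) * G ξ)) := by
      intro u
      rw [ExV_shift, integral_const_mul]
    simp only [e1]
    have hint : Integrable (Function.uncurry fun (u : ℝ) (ξ : Fin n → ℝ) =>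
        kk y b w u * (ee (∑ i, x i * ξ i) * (ee (-(u * ξ j)) * G ξ)))
        ((volume : Measure ℝ).prod volume) := by
      have hP := (integrable_kk hy hb w).mul_prod (NiceV.integrable hG)
      refine hP.mono ?_ (Filter.Eventually.of_forall fun p => ?_)
      · refine Measurable.aestronglyMeasurable ?_
        have h1 : Measurable fun p : ℝ × (Fin n → ℝ) => kk y b w p.1 :=
          ((continuous_kk hy b).comp (by fun_prop : Continuous fun u : ℝ => (w, u))).measurable.comp
            measurable_fst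
        have h2 : Measurable fun p : ℝ × (Fin n → ℝ) => G p.2 := hG.1.comp measurable_snd
        have h4 : Measurable fun p : ℝ × (Fin n → ℝ) => ee (-(p.1 * p.2 j)) :=
          measurable_ee.comp (by fun_prop)
        have h5 : Measurable fun p : ℝ × (Fin n → ℝ) => ee (∑ i, x i * p.2 i) :=
          measurable_ee.comp (by fun_prop)
        exact h1.mul (h5.mul (h4.mul h2))
      · simp only [Function.uncurry, norm_mul, norm_ee, one_mul]
        exact le_rfl
    rw [integral_integral_swap hint]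
    refine integral_congr_ae (Filter.Eventually.of_forall fun ξ => ?_)
    simp only
    rw [← integral_mul_const, ← integral_const_mul]
    refine integral_congr_ae (Filter.Eventually.of_forall fun u => ?_)
    simp only
    ring
  rw [h1]
  have h2 : ∀ ξ : Fin n → ℝ, ee (∑ i, x i * ξ i) *
      ((∫ u : ℝ, ee (-(u * ξ j)) * kk y b w u) * G ξ) =
      Cb b * ∫ σ : ℝ, ee (w * σ) * (ee (∑ i, x i * ξ i) * (nu y b (ξ j) σ * G ξ)) := by
    intro ξ
    rw [khat_eq hy hb, ← integral_const_mul, ← integral_mul_const, ← integral_const_mul,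
      ← integral_const_mul]
    refine integral_congr_ae (Filter.Eventually.of_forall fun σ => ?_)
    simp only
    ring
  simp only [h2]
  rw [integral_const_mul]
  congr 1
  have hsw := integral_integral_swap (f := fun (ξ : Fin n → ℝ) (σ : ℝ) =>
    ee (w * σ) * (ee (∑ i, x i * ξ i) * (nu y b (ξ j) σ * G ξ))) (int_pair hy b j hG x w)
  rw [hsw]
  unfold ift Nx
  refine integral_congr_ae (Filter.Eventually.of_forall fun σ => ?_)
  simp only
  rw [integral_const_mul]

/-- the identity of the transport -/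
theorem transport {R : ℝ} (hR : 0 < R) {b : ℝ} (hb : 0 < b) (j : Fin n) {G : (Fin n → ℝ) → ℂ}
    (hG : NiceV G) (M : ℕ) (hM : 1 ≤ M) (l : ℤ) (w : ℝ) (x : Fin n → ℝ) :
    Cb b * ExtN (UN (Function.update 0 j b) fun ζ =>
        ((bet (ζ.1 / 2 ^ l) * am M R ζ.1 : ℝ) : ℂ) * G ζ.2) (w, x) =
      ∫ w' : ℝ, ift (mu M R l) (w - w') * Phi R⁻¹ b j G w' x := by
  have hy : 0 < R⁻¹ := inv_pos.2 hR
  simp only [Phi_eq hy hb j hG]
  have h1 : ∀ w' : ℝ, ift (mu M R l) (w - w') * (Cb b * ift (Nx R⁻¹ b j G x) w') =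
      Cb b * (ift (mu M R l) (w - w') * ift (Nx R⁻¹ b j G x) w') := fun w' => by ring
  simp only [h1]
  rw [integral_const_mul, ← conv_ift (mu_contDiff M R l) (mu_supp M R l) (integrable_Nx hy b j hG x)]
  congr 1
  have e1 : ∀ ζ : ℝ × (Fin n → ℝ), ee (w * ζ.1 + ∑ i, x i * ζ.2 i) *
      UN (Function.update 0 j b) (fun ζ =>
        ((bet (ζ.1 / 2 ^ l) * am M R ζ.1 : ℝ) : ℂ) * G ζ.2) ζ =
      mu M R l ζ.1 * (ee (w * ζ.1) * (ee (∑ i, x i * ζ.2 i) * (nu R⁻¹ b (ζ.2 j) ζ.1 * G ζ.2))) := by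
    intro ζ
    unfold UN
    have e2 : ∑ i, (Function.update (0 : Fin n → ℝ) j b) i * ζ.2 i ^ 2 = b * ζ.2 j ^ 2 := by
      rw [Finset.sum_eq_single j]
      · rw [Function.update_self]
      · intro i _ hij
        rw [Function.update_of_ne hij, Pi.zero_apply, zero_mul]
      · intro h; exact absurd (Finset.mem_univ j) h
    rw [e2]
    simp only
    rw [mu_amp M hM hR, ee_add, nu_eq]
    unfold HH
    ring
  unfold ExtN
  simp only [e1]
  have hint : Integrable (fun ζ : ℝ × (Fin n → ℝ) =>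
      mu M R l ζ.1 * (ee (w * ζ.1) * (ee (∑ i, x i * ζ.2 i) * (nu R⁻¹ b (ζ.2 j) ζ.1 * G ζ.2))))
      ((volume : Measure ℝ).prod volume) := by
    have h2 := (int_pair hy b j hG x w).swap
    obtain ⟨B, hB⟩ := (mu_supp M R l).exists_bound_of_continuous (mu_contDiff M R l).continuous
    refine h2.bdd_mul (c := B) ?_ ?_
    · exact ((mu_contDiff M R l).continuous.comp continuous_fst).aestronglyMeasurable
    · exact Filter.Eventually.of_forall fun ζ => hB _
  rw [Measure.volume_eq_prod, integral_prod _ hint]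
  refine integral_congr_ae (Filter.Eventually.of_forall fun σ => ?_)
  simp only
  rw [integral_const_mul, integral_const_mul]
  unfold Nx
  ring

end Pool.Agent.T9h29.LG
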