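import Pool.Agent.T9h29.LG.Phi

/-!
# (TR) of `T9h44.LG.Spec2` (helper29)
-/

set_option autoImplicit false

namespace Pool.Agent.T9h29.LG

open MeasureTheory Real Pool.Agent.T9h44.LG Pool.Agent.T9h31.LG
open scoped ENNReal ComplexConjugate Topology

variable {n : ℕ}

section young

variable {α β : Type*} [MeasurableSpace α] [MeasurableSpace β]

/-- Cauchy-Schwarz -/
lemma cs_two {μ : Measure α} {K u : α → ℝ≥0∞} (hK : Measurable K) (hu : Measurable u) :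
    (∫⁻ z, K z * u z ∂μ) ^ 2 ≤ (∫⁻ z, K z ∂μ) * ∫⁻ z, K z * u z ^ 2 ∂μ := by
  have h := ENNReal.lintegral_mul_le_Lp_mul_Lq (μ := μ)
    (Real.HolderConjugate.two_two)
    (f := fun z => K z ^ (1 / 2 : ℝ)) (g := fun z => K z ^ (1 / 2 : ℝ) * u z)
    (hK.pow_const _).aemeasurable ((hK.pow_const _).mul hu).aemeasurable
  have e1 : ∀ z, (K z ^ (1 / 2 : ℝ)) * (K z ^ (1 / 2 : ℝ) * u z) = K z * u z := by
    intro z
    rw [← mul_assoc, ← ENNReal.rpow_add_of_nonneg _ _ (by norm_num) (by norm_num)]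
    norm_num
  have e2 : ∀ z, (K z ^ (1 / 2 : ℝ)) ^ (2 : ℝ) = K z := by
    intro z
    rw [← ENNReal.rpow_mul]
    norm_num
  have e3 : ∀ z, (K z ^ (1 / 2 : ℝ) * u z) ^ (2 : ℝ) = K z * u z ^ 2 := by
    intro z
    rw [ENNReal.mul_rpow_of_nonneg _ _ (by norm_num), e2]
    norm_num
  simp only [Pi.mul_apply, e1, e2, e3] at h
  calc (∫⁻ z, K z * u z ∂μ) ^ 2 ≤
      ((∫⁻ z, K z ∂μ) ^ (1 / 2 : ℝ) * (∫⁻ z, K z * u z ^ 2 ∂μ) ^ (1 / 2 : ℝ)) ^ 2 := by gcongr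
    _ = _ := by
      rw [mul_pow, ← ENNReal.rpow_natCast, ← ENNReal.rpow_natCast, ← ENNReal.rpow_mul,
        ← ENNReal.rpow_mul]
      norm_num

/-- Hölder, the fourth power -/
lemma cs_four {μ : Measure α} {K u : α → ℝ≥0∞} (hK : Measurable K) (hu : Measurable u) :
    (∫⁻ z, K z * u z ∂μ) ^ 4 ≤ (∫⁻ z, K z ∂μ) ^ 3 * ∫⁻ z, K z * u z ^ 4 ∂μ := by
  have h1 := cs_two (μ := μ) hK hu
  have h2 := cs_two (μ := μ) hK (hu.pow_const 2)
  calc (∫⁻ z, K z * u z ∂μ) ^ 4 = ((∫⁻ z, K z * u z ∂μ) ^ 2) ^ 2 := by ring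
    _ ≤ ((∫⁻ z, K z ∂μ) * ∫⁻ z, K z * u z ^ 2 ∂μ) ^ 2 := by gcongr
    _ = (∫⁻ z, K z ∂μ) ^ 2 * (∫⁻ z, K z * u z ^ 2 ∂μ) ^ 2 := by ring
    _ ≤ (∫⁻ z, K z ∂μ) ^ 2 * ((∫⁻ z, K z ∂μ) * ∫⁻ z, K z * (u z ^ 2) ^ 2 ∂μ) := by gcongr
    _ = _ := by
      have : ∀ z, (u z ^ 2) ^ 2 = u z ^ 4 := fun z => by ring
      simp only [this]
      ring

/-- Young, the fourth power -/
lemma young_four {μ : Measure α} {ν : Measure β} [SFinite μ] [SFinite ν] {K : α → ℝ≥0∞}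
    {h : α → β → ℝ≥0∞} (hK : Measurable K) (hh : Measurable (Function.uncurry h)) (B : ℝ≥0∞)
    (hB : ∀ u, ∫⁻ x, h u x ^ 4 ∂ν ≤ B) :
    ∫⁻ x, (∫⁻ u, K u * h u x ∂μ) ^ 4 ∂ν ≤ (∫⁻ u, K u ∂μ) ^ 4 * B := by
  have hm : ∀ x, Measurable fun u => h u x := fun x => hh.comp (measurable_id.prodMk measurable_const)
  have hm2 : Measurable (Function.uncurry fun (x : β) (u : α) => K u * h u x ^ 4) :=
    (hK.comp measurable_snd).mul ((hh.comp measurable_swap).pow_const 4)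
  have hm3 : Measurable fun x => ∫⁻ u, K u * h u x ^ 4 ∂μ := hm2.lintegral_prod_right'
  refine (lintegral_mono fun x => cs_four hK (hm x)).trans ?_
  rw [lintegral_const_mul _ hm3, lintegral_lintegral_swap hm2.aemeasurable]
  have h1 : ∀ u, ∫⁻ x, K u * h u x ^ 4 ∂ν ≤ K u * B := by
    intro u
    rw [lintegral_const_mul]
    · exact mul_le_mul' le_rfl (hB u)
    · exact (hh.comp (measurable_const.prodMk measurable_id)).pow_const 4
  calc (∫⁻ u, K u ∂μ) ^ 3 * ∫⁻ u, ∫⁻ x, K u * h u x ^ 4 ∂ν ∂μ ≤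
        (∫⁻ u, K u ∂μ) ^ 3 * ∫⁻ u, K u * B ∂μ := by
          gcongr with u
          exact h1 u
    _ = _ := by rw [lintegral_mul_const _ hK]; ring

/-- Young in the time variable -/
lemma conv_time {X : Type*} [MeasurableSpace X] {ν : Measure X} [SFinite ν] {k : ℝ → ℂ}
    (hk : Measurable k) {P E : ℝ → X → ℂ} (hP : Measurable (Function.uncurry P)) {c : ℂ}
    (hc : 1 ≤ ‖c‖) (h : ∀ w x, c * E w x = ∫ w' : ℝ, k (w - w') * P w' x) :
    ∫⁻ p : ℝ × X, ‖E p.1 p.2‖ₑ ^ 4 ∂((volume : Measure ℝ).prod ν) ≤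
      (∫⁻ v, ‖k v‖ₑ) ^ 4 * ∫⁻ w : ℝ, ∫⁻ x, ‖P w x‖ₑ ^ 4 ∂ν := by
  have hc0 : c ≠ 0 := by
    intro h0; rw [h0, norm_zero] at hc; linarith
  have key : ∀ w x, ‖E w x‖ₑ ≤ ∫⁻ v : ℝ, ‖k v‖ₑ * ‖P (w - v) x‖ₑ := by
    intro w x
    have h2 : ‖E w x‖ₑ ≤ ‖c * E w x‖ₑ := by
      rw [enorm_mul]
      refine le_mul_of_one_le_left' ?_
      rw [← ofReal_norm, ← ENNReal.ofReal_one]
      exact ENNReal.ofReal_le_ofReal hc
    refine h2.trans ?_
    rw [h]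
    refine (enorm_integral_le_lintegral_enorm _).trans (le_of_eq ?_)
    rw [← lintegral_sub_left_eq_self (fun v => ‖k v‖ₑ * ‖P (w - v) x‖ₑ) w]
    refine lintegral_congr fun w' => ?_
    rw [enorm_mul, sub_sub_cancel]
  have step : ∀ x, ∫⁻ w : ℝ, ‖E w x‖ₑ ^ 4 ≤ (∫⁻ v, ‖k v‖ₑ) ^ 4 * ∫⁻ w : ℝ, ‖P w x‖ₑ ^ 4 := by
    intro x
    refine (lintegral_mono fun w => pow_le_pow_left' (key w x) 4).trans ?_
    refine young_four (μ := volume) (ν := volume) hk.enorm ?_ _ fun v => ?_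
    · have : Measurable fun p : ℝ × ℝ => ‖P (p.2 - p.1) x‖ₑ :=
        (hP.comp ((measurable_snd.sub measurable_fst).prodMk measurable_const)).enorm
      exact this
    · exact (lintegral_sub_right_eq_self (fun w => ‖P w x‖ₑ ^ 4) v).le
  have hmE : Measurable fun p : ℝ × X => ‖E p.1 p.2‖ₑ ^ 4 := by
    have h1 : (fun p : ℝ × X => E p.1 p.2) =
        fun p : ℝ × X => c⁻¹ * ∫ w' : ℝ, k (p.1 - w') * P w' p.2 := by
      funext p
      rw [← h, ← mul_assoc, inv_mul_cancel₀ hc0, one_mul]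
    have h2 : Measurable fun q : (ℝ × X) × ℝ => k (q.1.1 - q.2) * P q.2 q.1.2 := by
      have m1 : Measurable fun q : (ℝ × X) × ℝ => k (q.1.1 - q.2) :=
        hk.comp ((measurable_fst.comp measurable_fst).sub measurable_snd)
      have m2 : Measurable fun q : (ℝ × X) × ℝ => Function.uncurry P (q.2, q.1.2) :=
        hP.comp (measurable_snd.prodMk (measurable_snd.comp measurable_fst))
      exact m1.mul m2
    have h3 := h2.stronglyMeasurable.integral_prod_right' (ν := (volume : Measure ℝ))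
    have h4 : Measurable fun p : ℝ × X => E p.1 p.2 := by
      rw [h1]
      exact h3.measurable.const_mul _
    exact h4.enorm.pow_const 4
  have hmP4 : Measurable fun p : X × ℝ => ‖P p.2 p.1‖ₑ ^ 4 :=
    (hP.comp measurable_swap).enorm.pow_const 4
  have hmP5 : Measurable fun x : X => ∫⁻ w : ℝ, ‖P w x‖ₑ ^ 4 := hmP4.lintegral_prod_right'
  rw [lintegral_prod_symm' _ hmE]
  have hsw : ∫⁻ x : X, (∫⁻ w : ℝ, ‖P w x‖ₑ ^ 4) ∂ν = ∫⁻ w : ℝ, ∫⁻ x : X, ‖P w x‖ₑ ^ 4 ∂ν :=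
    lintegral_lintegral_swap hmP4.aemeasurable
  refine (lintegral_mono step).trans ?_
  rw [lintegral_const_mul _ hmP5, hsw]

end young

/-- integration by parts -/
lemma parts_gen {k k' g g' : ℝ → ℂ} (hk : ∀ u, HasDerivAt k (k' u) u)
    (hg : ∀ u, HasDerivAt g (-(g' u)) u) (ik : Integrable k) (ik' : Integrable k')
    (cg : Continuous g) (cg' : Continuous g') (bg : ∃ B : ℝ, ∀ u, ‖g u‖ ≤ B)
    (bg' : ∃ B : ℝ, ∀ u, ‖g' u‖ ≤ B) :
    ∫ u, k u * g' u = ∫ u, k' u * g u := by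
  have hbd : ∀ {k : ℝ → ℂ} {g : ℝ → ℂ}, Integrable k → Continuous g → (∃ B : ℝ, ∀ u, ‖g u‖ ≤ B) →
      Integrable (k * g) := by
    intro k g hk hg ⟨B, hB⟩
    have := hk.bdd_mul (c := B) hg.aestronglyMeasurable (Filter.Eventually.of_forall hB)
    refine this.congr (Filter.Eventually.of_forall fun u => ?_)
    simp only [Pi.mul_apply]; ring
  have i1 : Integrable (k * fun u => -(g' u)) := by
    refine hbd ik cg'.neg ?_
    obtain ⟨B, hB⟩ := bg'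
    exact ⟨B, fun u => by rw [norm_neg]; exact hB u⟩
  have h := integral_mul_deriv_eq_deriv_mul_of_integrable (fun u _ => hk u) (fun u _ => hg u) i1
    (hbd ik' cg bg) (hbd ik cg bg)
  simp only [mul_neg] at h
  rw [integral_neg, neg_inj] at h
  exact h

lemma lint_shift (f : (Fin n → ℝ) → ℝ≥0∞) (j : Fin n) (u : ℝ) :
    ∫⁻ x : Fin n → ℝ, f (x - Pi.single j u) = ∫⁻ x : Fin n → ℝ, f x :=
  lintegral_sub_right_eq_self f (Pi.single j u)

lemma cont_sh (j : Fin n) : Continuous fun p : ℝ × (Fin n → ℝ) => p.2 - Pi.single j p.1 := by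
  refine continuous_pi fun i => ?_
  by_cases h : i = j
  · subst h
    simp only [Pi.sub_apply, Pi.single_eq_same]
    fun_prop
  · simp only [Pi.sub_apply, Pi.single_eq_of_ne h]
    fun_prop

/-- a convolution in the variable `x_j` -/
lemma conv_bound {k : ℝ → ℂ} (hk : Continuous k) {G : (Fin n → ℝ) → ℂ} (hG : NiceV G) (j : Fin n) :
    ∫⁻ x : Fin n → ℝ, ‖∫ u : ℝ, k u * ExV G (x - Pi.single j u)‖ₑ ^ 4 ≤
      (∫⁻ u, ‖k u‖ₑ) ^ 4 * ∫⁻ x : Fin n → ℝ, ‖ExV G x‖ₑ ^ 4 := by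
  have hm : Measurable (Function.uncurry fun (u : ℝ) (x : Fin n → ℝ) =>
      ‖ExV G (x - Pi.single j u)‖ₑ) :=
    ((continuous_ExV hG).comp (cont_sh j)).measurable.enorm
  refine le_trans (lintegral_mono fun x => ?_)
    (young_four (μ := volume) (ν := volume) hk.measurable.enorm hm _
      (fun u => (lint_shift (fun x => ‖ExV G x‖ₑ ^ 4) j u).le))
  gcongr
  refine (enorm_integral_le_lintegral_enorm _).trans (le_of_eq ?_)
  simp only [enorm_mul]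

lemma hasDeriv_ExV {G H : (Fin n → ℝ) → ℂ} (hG : NiceV G) (hH : NiceV H) (j : Fin n)
    (hGH : ∀ ξ, G ξ = 2 * π * Complex.I * ξ j * H ξ) (x : Fin n → ℝ) (u : ℝ) :
    HasDerivAt (fun u : ℝ => ExV H (x - Pi.single j u)) (-ExV G (x - Pi.single j u)) u := by
  have h1 : (fun u : ℝ => ExV H (x - Pi.single j u)) = fun u : ℝ =>
      ∫ ξ : Fin n → ℝ, ee (∑ i, x i * ξ i) * (ee (-(u * ξ j)) * H ξ) :=
    funext fun u => ExV_shift H x j u
  have h2 : -ExV G (x - Pi.single j u) = ∫ ξ : Fin n → ℝ, ee (∑ i, x i * ξ i) *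
      (-(2 * π * Complex.I * ξ j) * ee (-(u * ξ j)) * H ξ) := by
    rw [ExV_shift, ← integral_neg]
    refine integral_congr_ae (Filter.Eventually.of_forall fun ξ => ?_)
    simp only
    rw [hGH]; ring
  rw [h1, h2]
  have hmE : Measurable fun ξ : Fin n → ℝ => ee (∑ i, x i * ξ i) := measurable_ee.comp (by fun_prop)
  have hmE2 : ∀ u : ℝ, Measurable fun ξ : Fin n → ℝ => ee (-(u * ξ j)) := fun u =>
    measurable_ee.comp (by fun_prop)
  refine (hasDerivAt_integral_of_dominated_loc_of_deriv_le (bound := fun ξ => ‖G ξ‖)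
    (F := fun (u : ℝ) (ξ : Fin n → ℝ) => ee (∑ i, x i * ξ i) * (ee (-(u * ξ j)) * H ξ))
    (F' := fun (u : ℝ) (ξ : Fin n → ℝ) => ee (∑ i, x i * ξ i) *
      (-(2 * π * Complex.I * ξ j) * ee (-(u * ξ j)) * H ξ)) Filter.univ_mem
    (Filter.Eventually.of_forall fun u => ?_) ?_ ?_ ?_ (NiceV.integrable hG).norm ?_).2
  · exact (hmE.mul ((hmE2 u).mul hH.1)).aestronglyMeasurable
  · refine (NiceV.integrable hH).mono (hmE.mul ((hmE2 u).mul hH.1)).aestronglyMeasurable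
      (Filter.Eventually.of_forall fun ξ => ?_)
    rw [norm_mul, norm_mul, norm_ee, norm_ee, one_mul, one_mul]
  · refine (hmE.mul (((Measurable.neg ?_).mul (hmE2 u)).mul hH.1)).aestronglyMeasurable
    fun_prop
  · refine Filter.Eventually.of_forall fun ξ u _ => le_of_eq ?_
    rw [hGH, norm_mul, norm_ee, one_mul, norm_mul, norm_mul, norm_mul, norm_neg, norm_ee, mul_one]
  · refine Filter.Eventually.of_forall fun ξ u _ => ?_
    have h3 : HasDerivAt (fun u : ℝ => ((2 * π * (-(u * ξ j)) : ℝ) : ℂ) * Complex.I)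
        (((2 * π * (-(1 * ξ j)) : ℝ) : ℂ) * Complex.I) u := by
      refine HasDerivAt.mul_const ?_ _
      exact ((((hasDerivAt_id u).mul_const (ξ j)).neg).const_mul (2 * π)).ofReal_comp
    have h4 := (h3.cexp.mul_const (H ξ)).const_mul (ee (∑ i, x i * ξ i))
    refine h4.congr_deriv ?_
    unfold T9h44.LG.ee
    push_cast
    ring

lemma Phi_parts {y : ℝ} (hy : 0 < y) {b : ℝ} (hb : 0 < b) {G H : (Fin n → ℝ) → ℂ} (hG : NiceV G)
    (hH : NiceV H) (j : Fin n) (hGH : ∀ ξ, G ξ = 2 * π * Complex.I * ξ j * H ξ) (w : ℝ)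
    (x : Fin n → ℝ) :
    Phi y b j G w x = ∫ u : ℝ, kd y b w u * ExV H (x - Pi.single j u) := by
  have hcs : Continuous fun u : ℝ => x - Pi.single j u := by
    exact (cont_sh j).comp (by fun_prop : Continuous fun u : ℝ => (u, x))
  have hcG : Continuous fun u : ℝ => ExV G (x - Pi.single j u) := (continuous_ExV hG).comp hcs
  have hcH : Continuous fun u : ℝ => ExV H (x - Pi.single j u) := (continuous_ExV hH).comp hcs
  unfold Phi
  exact parts_gen (fun u => hasDeriv_kk hy hb w u) (fun u => hasDeriv_ExV hG hH j hGH x u)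
    (integrable_kk hy hb w) (integrable_kd hy hb w) hcH hcG
    ⟨∫ ξ, ‖H ξ‖, fun u => norm_ExV_le H _⟩ ⟨∫ ξ, ‖G ξ‖, fun u => norm_ExV_le G _⟩

lemma measurable_Phi {y : ℝ} (hy : 0 < y) (b : ℝ) {G : (Fin n → ℝ) → ℂ} (hG : NiceV G)
    (j : Fin n) : Measurable (Function.uncurry (Phi y b j G)) := by
  have hc : Continuous fun q : (ℝ × (Fin n → ℝ)) × ℝ =>
      kk y b q.1.1 q.2 * ExV G (q.1.2 - Pi.single j q.2) := by
    refine ((continuous_kk hy b).comp (by fun_prop :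
      Continuous fun q : (ℝ × (Fin n → ℝ)) × ℝ => (q.1.1, q.2))).mul ?_
    exact (continuous_ExV hG).comp ((cont_sh j).comp (by fun_prop :
      Continuous fun q : (ℝ × (Fin n → ℝ)) × ℝ => (q.2, q.1.2)))
  have h := hc.stronglyMeasurable.integral_prod_right' (ν := (volume : Measure ℝ))
  exact h.measurable

/-- the norm of the transported function -/
lemma Phi_norm {y : ℝ} (hy : 0 < y) {b : ℝ} (hb : b ∈ Set.Icc (1 / 8 : ℝ) (1 / 2))
    {G H : (Fin n → ℝ) → ℂ} (hG : NiceV G) (hH : NiceV H) (j : Fin n)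
    (hGH : ∀ ξ, G ξ = 2 * π * Complex.I * ξ j * H ξ) :
    ∫⁻ w : ℝ, ∫⁻ x : Fin n → ℝ, ‖Phi y b j G w x‖ₑ ^ 4 ≤
      ENNReal.ofReal (128 * π ^ 5 / y ^ 4) * (∫⁻ x : Fin n → ℝ, ‖ExV G x‖ₑ ^ 4) +
      ENNReal.ofReal (512 * π ^ 4 / y ^ 8) * ∫⁻ x : Fin n → ℝ, ‖ExV H x‖ₑ ^ 4 := by
  have hb0 : 0 < b := lt_of_lt_of_le (by norm_num) hb.1
  obtain ⟨IG, hIG⟩ : ∃ IG : ℝ≥0∞, IG = ∫⁻ x : Fin n → ℝ, ‖ExV G x‖ₑ ^ 4 := ⟨_, rfl⟩
  obtain ⟨IH, hIH⟩ : ∃ IH : ℝ≥0∞, IH = ∫⁻ x : Fin n → ℝ, ‖ExV H x‖ₑ ^ 4 := ⟨_, rfl⟩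
  rw [← hIG, ← hIH]
  have big : ∀ w : ℝ, 1 < |w| → ∫⁻ x : Fin n → ℝ, ‖Phi y b j G w x‖ₑ ^ 4 ≤
      ENNReal.ofReal (128 * π ^ 4 / y ^ 4 * (1 + w ^ 2)⁻¹) * IG := by
    intro w hw
    have hw0 : w ≠ 0 := by
      intro h; rw [h, abs_zero] at hw; linarith
    refine (conv_bound ((continuous_kk hy b).comp
      (by fun_prop : Continuous fun u : ℝ => (w, u))) hG j).trans ?_
    rw [← hIG]
    refine mul_le_mul' ?_ le_rfl
    have h1 := lint_kk hy hb0 hw0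
    have haw : 0 < √|w| := Real.sqrt_pos.2 (by linarith)
    calc (∫⁻ u : ℝ, ‖kk y b w u‖ₑ) ^ 4 ≤ (ENNReal.ofReal (4 * √b * π / (y * √|w|))) ^ 4 := by gcongr
      _ = ENNReal.ofReal ((4 * √b * π / (y * √|w|)) ^ 4) := by
        rw [ENNReal.ofReal_pow (by positivity)]
      _ ≤ _ := by
        refine ENNReal.ofReal_le_ofReal ?_
        have e1 : (4 * √b * π / (y * √|w|)) ^ 4 = 256 * b ^ 2 * π ^ 4 / (y ^ 4 * w ^ 2) := by
          have h3 : √b ^ 4 = b ^ 2 := by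
            rw [show √b ^ 4 = (√b ^ 2) ^ 2 by ring, Real.sq_sqrt hb0.le]
          have h4 : √|w| ^ 4 = w ^ 2 := by
            rw [show √|w| ^ 4 = (√|w| ^ 2) ^ 2 by ring, Real.sq_sqrt (abs_nonneg _), sq_abs]
          rw [div_pow, mul_pow, mul_pow, mul_pow, h3, h4]
          norm_num
        rw [e1]
        have hw2 : 1 < w ^ 2 := by
          rw [← sq_abs]; nlinarith
        rw [← div_eq_mul_inv, div_div, div_le_div_iff₀ (by positivity) (by positivity)]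
        have hbb : b ^ 2 ≤ 1 / 4 := by nlinarith [hb.2]
        have h5 : 256 * b ^ 2 ≤ 64 := by linarith
        calc 256 * b ^ 2 * π ^ 4 * (y ^ 4 * (1 + w ^ 2)) ≤
            64 * π ^ 4 * (y ^ 4 * (1 + w ^ 2)) := by gcongr
          _ ≤ 64 * π ^ 4 * (y ^ 4 * (w ^ 2 + w ^ 2)) := by gcongr
          _ = _ := by ring
  have small : ∀ w : ℝ, ∫⁻ x : Fin n → ℝ, ‖Phi y b j G w x‖ₑ ^ 4 ≤
      ENNReal.ofReal (256 * π ^ 4 / y ^ 8) * IH := by
    intro w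
    simp only [Phi_parts hy hb0 hG hH j hGH w]
    refine (conv_bound ((continuous_kd hy b).comp
      (by fun_prop : Continuous fun u : ℝ => (w, u))) hH j).trans ?_
    rw [← hIH]
    refine mul_le_mul' ?_ le_rfl
    have h1 := lint_kd hy hb0 w
    calc (∫⁻ u : ℝ, ‖kd y b w u‖ₑ) ^ 4 ≤ (ENNReal.ofReal (4 * π / y ^ 2)) ^ 4 := by gcongr
      _ = ENNReal.ofReal ((4 * π / y ^ 2) ^ 4) := by rw [ENNReal.ofReal_pow (by positivity)]
      _ = _ := by congr 1; field_simp; norm_num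
  have h1 := lintegral_add_compl (μ := (volume : Measure ℝ))
    (fun w => ∫⁻ x : Fin n → ℝ, ‖Phi y b j G w x‖ₑ ^ 4) (measurableSet_Icc (a := (-1 : ℝ)) (b := 1))
  rw [← h1, add_comm]
  have hA : ∫⁻ w in (Set.Icc (-1 : ℝ) 1)ᶜ, ∫⁻ x : Fin n → ℝ, ‖Phi y b j G w x‖ₑ ^ 4 ≤
      ENNReal.ofReal (128 * π ^ 5 / y ^ 4) * IG := by
    calc ∫⁻ w in (Set.Icc (-1 : ℝ) 1)ᶜ, ∫⁻ x : Fin n → ℝ, ‖Phi y b j G w x‖ₑ ^ 4 ≤
        ∫⁻ w in (Set.Icc (-1 : ℝ) 1)ᶜ, ENNReal.ofReal (128 * π ^ 4 / y ^ 4 * (1 + w ^ 2)⁻¹) * IG := by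
          refine setLIntegral_mono' measurableSet_Icc.compl fun w hw => big w ?_
          rw [Set.mem_compl_iff, Set.mem_Icc, ← abs_le, not_le] at hw
          exact hw
      _ ≤ ∫⁻ w : ℝ, ENNReal.ofReal (128 * π ^ 4 / y ^ 4 * (1 + w ^ 2)⁻¹) * IG :=
          setLIntegral_le_lintegral _ _
      _ = (∫⁻ w : ℝ, ENNReal.ofReal (128 * π ^ 4 / y ^ 4 * (1 + w ^ 2)⁻¹)) * IG := by
          rw [lintegral_mul_const]
          fun_prop
      _ = _ := by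
          congr 1
          rw [← ofReal_integral_eq_lintegral_ofReal (integrable_inv_one_add_sq.const_mul _)
            (Filter.Eventually.of_forall fun w => by positivity), integral_const_mul,
            integral_univ_inv_one_add_sq]
          congr 1
          ring
  have hB : ∫⁻ w in Set.Icc (-1 : ℝ) 1, ∫⁻ x : Fin n → ℝ, ‖Phi y b j G w x‖ₑ ^ 4 ≤
      ENNReal.ofReal (512 * π ^ 4 / y ^ 8) * IH := by
    calc ∫⁻ w in Set.Icc (-1 : ℝ) 1, ∫⁻ x : Fin n → ℝ, ‖Phi y b j G w x‖ₑ ^ 4 ≤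
        ∫⁻ w in Set.Icc (-1 : ℝ) 1, ENNReal.ofReal (256 * π ^ 4 / y ^ 8) * IH :=
          lintegral_mono fun w => small w
      _ = _ := by
          rw [setLIntegral_const, Real.volume_Icc, mul_right_comm, ← ENNReal.ofReal_mul (by positivity)]
          congr 2
          ring
  exact add_le_add hA hB

/-- (TR) for `1/8 ≤ b ≤ 1/2` -/
theorem tr_gen (n : ℕ) (M K : ℕ) (hM : 2 ≤ M) : ∃ C : ℝ, 0 < C ∧ ∀ (j : Fin n) (b R : ℝ) (l : ℤ),
    b ∈ Set.Icc (1 / 8 : ℝ) (1 / 2) → 1 ≤ R → ∀ G H : (Fin n → ℝ) → ℂ, NiceV G → NiceV H →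
    (∀ ξ, G ξ = 2 * π * Complex.I * ξ j * H ξ) →
    ∫⁻ p : ℝ × (Fin n → ℝ), ‖ExtN (UN (Function.update 0 j b) fun ζ =>
        ((bet (ζ.1 / 2 ^ l) * am M R ζ.1 : ℝ) : ℂ) * G ζ.2) p‖ₑ ^ 4 ≤
      ENNReal.ofReal (C * (((2 : ℝ) ^ l) ^ (M - 1) * (1 + 2 ^ l / R) ^ (-(K : ℤ)) * R) ^ 4) *
        ((∫⁻ x : Fin n → ℝ, ‖ExV G x‖ₑ ^ 4) +
          ENNReal.ofReal (R ^ 4) * ∫⁻ x : Fin n → ℝ, ‖ExV H x‖ₑ ^ 4) := by
  obtain ⟨C, hC, hmu⟩ := lint_mu M K
  refine ⟨C ^ 4 * (512 * π ^ 5), by positivity, fun j b R l hb hR G H hG hH hGH => ?_⟩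
  have hR0 : 0 < R := by linarith
  have hy : 0 < R⁻¹ := inv_pos.2 hR0
  have hb0 : 0 < b := lt_of_lt_of_le (by norm_num) hb.1
  have hCb : 1 ≤ ‖Cb b‖ := by
    rw [norm_Cb hb0]
    have h1 : (1 / 4 : ℝ) ^ (1 / 2 : ℝ) ≤ (2 * b) ^ (1 / 2 : ℝ) := by
      refine Real.rpow_le_rpow (by norm_num) (by linarith [hb.1]) (by norm_num)
    have h2 : (1 / 4 : ℝ) ^ (1 / 2 : ℝ) = 1 / 2 := by
      rw [← Real.sqrt_eq_rpow, show (1 / 4 : ℝ) = (1 / 2) ^ 2 by norm_num]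
      exact Real.sqrt_sq (by norm_num)
    rw [h2] at h1
    nlinarith [Real.pi_gt_three]
  have hmu_c : Measurable (ift (mu M R l)) :=
    (continuous_ift ((mu_contDiff M R l).continuous.integrable_of_hasCompactSupport
      (mu_supp M R l))).measurable
  have main := conv_time (ν := (volume : Measure (Fin n → ℝ))) hmu_c (measurable_Phi hy b hG j) hCb
    (fun w x => transport hR0 hb0 j hG M (by omega) l w x)
  have hN := Phi_norm hy hb hG hH j hGH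
  have hm := hmu R l hR0
  rw [Measure.volume_eq_prod]
  refine main.trans ?_
  generalize (∫⁻ w : ℝ, ∫⁻ x : Fin n → ℝ, ‖Phi R⁻¹ b j G w x‖ₑ ^ 4) = W at hN ⊢
  generalize (∫⁻ v : ℝ, ‖ift (mu M R l) v‖ₑ) = V at hm ⊢
  generalize (∫⁻ x : Fin n → ℝ, ‖ExV G x‖ₑ ^ 4) = IG at hN ⊢
  generalize (∫⁻ x : Fin n → ℝ, ‖ExV H x‖ₑ ^ 4) = IH at hN ⊢
  obtain ⟨X, hX⟩ : ∃ X : ℝ, X = ((2 : ℝ) ^ l) ^ (M - 1) * (1 + 2 ^ l / R) ^ (-(K : ℤ)) := ⟨_, rfl⟩
  have hX0 : 0 ≤ X := by rw [hX]; positivity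
  rw [← hX] at hm ⊢
  calc V ^ 4 * W ≤ ENNReal.ofReal ((C * X) ^ 4) * (ENNReal.ofReal (128 * π ^ 5 / R⁻¹ ^ 4) * IG +
          ENNReal.ofReal (512 * π ^ 4 / R⁻¹ ^ 8) * IH) := by
        rw [ENNReal.ofReal_pow (by positivity)]
        gcongr
    _ ≤ ENNReal.ofReal ((C * X) ^ 4) * (ENNReal.ofReal (512 * π ^ 5 * R ^ 4) * IG +
          ENNReal.ofReal (512 * π ^ 5 * R ^ 4) * (ENNReal.ofReal (R ^ 4) * IH)) := by
        have q1 : 128 * π ^ 5 / R⁻¹ ^ 4 ≤ 512 * π ^ 5 * R ^ 4 := by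
          have e1 : 128 * π ^ 5 / R⁻¹ ^ 4 = 128 * (π ^ 5 * R ^ 4) := by field_simp
          rw [e1]
          have : 0 ≤ π ^ 5 * R ^ 4 := by positivity
          linarith
        have q2 : 512 * π ^ 4 / R⁻¹ ^ 8 ≤ 512 * π ^ 5 * R ^ 4 * R ^ 4 := by
          have e1 : 512 * π ^ 4 / R⁻¹ ^ 8 = 512 * π ^ 4 * 1 * R ^ 8 := by field_simp
          have e2 : 512 * π ^ 5 * R ^ 4 * R ^ 4 = 512 * π ^ 4 * π * R ^ 8 := by ring
          rw [e1, e2]
          gcongr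
          linarith [Real.pi_gt_three]
        rw [← mul_assoc (ENNReal.ofReal (512 * π ^ 5 * R ^ 4)), ← ENNReal.ofReal_mul (by positivity)]
        gcongr
    _ = _ := by
        rw [← mul_add, ← mul_assoc, ← ENNReal.ofReal_mul (by positivity)]
        congr 2
        ring

/-- (TR) -/
theorem s_tr (n : ℕ) : S_tr n := by
  intro M K hM
  obtain ⟨C, hC, h⟩ := tr_gen n M K hM
  refine ⟨C, hC, fun j b R l hb hR G H hG hH hGH => ?_⟩
  exact h j b R l ⟨hb.1, hb.2.trans (by norm_num)⟩ hR G H hG hH hGH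

end Pool.Agent.T9h29.LG
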