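import Pool.Agent.T9h29.LG.Tr
import Pool.Agent.T9h44.LG.Spec5

/-!
# (TRJ) of `T9h44.LG.Spec5` (helper29)
-/

set_option autoImplicit false

namespace Pool.Agent.T9h29.LG

open Pool.Agent.T9h44.LG

/-- (TRJ) -/
theorem s_trJ (n : ℕ) : S_trJ n := fun M K hM => tr_gen n M K hM

end Pool.Agent.T9h29.LG
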